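import Pool.Agent.Work.MP_6c3bcd_an.Skel.Final

/-!
# Duals of Asplund spaces have projectional skeletons
-/

universe u v w

namespace Pool.Agent.Work.MP_6c3bcd_an.Skel

open Set Topology
open Pool.Agent.Work.MP_6c3bcd_an.Asp
open Pool.Agent.Work.MP_6c3bcd_an.Asp.IJump

/-- A system of norm one projections gives a projectional skeleton. -/
theorem skeleton_of_projFam {𝕜 : Type u} [RCLike 𝕜] {X : Type v} {E : Type w}
    [NormedAddCommGroup E] [NormedSpace 𝕜 E] {M : Finset X → Set X} (hM : ∀ F, (M F).Countable)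
    {Q : Set X → E →L[𝕜] E} (hQ : ProjFam M Q) :
    IsProjectionalSkeleton fun S : {S : Set X // Cl M S ∧ S.Countable} => Q (S : Set X) := by
  obtain ⟨cl, hcl1, hcl2, hcl3, hcl4⟩ := prfClos X M hM
  have hclc : ∀ S : Set X, S.Countable → (cl S).Countable := by
    intro S hS
    rw [← Cardinal.le_aleph0_iff_set_countable] at hS ⊢
    exact (hcl4 S).trans (max_le hS le_rfl)
  have hseq : ∀ σ : ℕ → {S : Set X // Cl M S ∧ S.Countable}, Monotone σ →
      Cl M (⋃₀ (range fun n => (σ n : Set X))) ∧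
        (⋃₀ (range fun n => (σ n : Set X))).Countable := by
    intro σ hσ
    refine ⟨cl_sUnion (range_nonempty _) ?_ ?_, ?_⟩
    · rintro _ ⟨n, rfl⟩ _ ⟨m, rfl⟩
      exact ⟨σ (max n m), mem_range_self _, hσ (le_max_left n m), hσ (le_max_right n m)⟩
    · rintro _ ⟨n, rfl⟩
      exact (σ n).2.1
    · refine (countable_range _).sUnion ?_
      rintro _ ⟨n, rfl⟩
      exact (σ n).2.2
  have hlub : ∀ σ : ℕ → {S : Set X // Cl M S ∧ S.Countable}, ∀ hσ : Monotone σ,
      IsLUB (range σ) ⟨⋃₀ (range fun n => (σ n : Set X)), hseq σ hσ⟩ := by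
    intro σ hσ
    constructor
    · rintro _ ⟨n, rfl⟩
      exact subset_sUnion_of_mem (mem_range_self n)
    · intro t ht
      refine sUnion_subset ?_
      rintro _ ⟨n, rfl⟩
      exact ht (mem_range_self n)
  refine
    { nonempty := ⟨⟨cl ∅, hcl2 _, hclc _ countable_empty⟩⟩
      directed := fun s t => ⟨⟨cl (s ∪ t), hcl2 _, hclc _ (s.2.2.union t.2.2)⟩,
        subset_union_left.trans (hcl1 _), subset_union_right.trans (hcl1 _)⟩
      separable := fun s => hQ.sep s s.2.1 s.2.2
      comp_left := fun s t h z => hQ.left s t s.2.1 t.2.1 h z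
      comp_right := fun s t h z => hQ.right s t s.2.1 t.2.1 h z
      exists_sup := fun σ hσ => ⟨_, hlub σ hσ⟩
      range_sup := ?_
      cover := ?_ }
  · intro σ s hσ hs
    have hs' := hs.unique (hlub σ hσ)
    subst hs'
    apply Subset.antisymm
    · rintro _ ⟨z, rfl⟩
      have h1 := hQ.cont (range fun n => (σ n : Set X)) (range_nonempty _) (by
        rintro _ ⟨n, rfl⟩ _ ⟨m, rfl⟩
        exact ⟨σ (max n m), mem_range_self _, hσ (le_max_left n m), hσ (le_max_right n m)⟩) (by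
        rintro _ ⟨n, rfl⟩
        exact (σ n).2.1) z
      rwa [biUnion_range] at h1
    · have hclosed : IsClosed (range (Q (⋃₀ (range fun n => (σ n : Set X))))) := by
        have heq : range (Q (⋃₀ (range fun n => (σ n : Set X)))) =
            {z | Q (⋃₀ (range fun n => (σ n : Set X))) z = z} := by
          ext z
          constructor
          · rintro ⟨w, rfl⟩
            exact hQ.right _ _ (hseq σ hσ).1 (hseq σ hσ).1 Subset.rfl w
          · intro h
            exact ⟨z, h⟩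
        rw [heq]
        exact isClosed_eq (Q _).continuous continuous_id
      refine hclosed.closure_subset_iff.2 (iUnion_subset fun n => ?_)
      rintro _ ⟨z, rfl⟩
      exact ⟨Q (σ n : Set X) z, hQ.right _ _ (σ n).2.1 (hseq σ hσ).1
        (subset_sUnion_of_mem (mem_range_self n)) z⟩
  · intro z
    set 𝒞 : Set (Set X) := {S | Cl M S ∧ S.Countable} with h𝒞
    have hun : ⋃₀ 𝒞 = univ := by
      refine eq_univ_of_forall fun x => ?_
      exact mem_sUnion.2 ⟨cl {x}, ⟨hcl2 _, hclc _ (countable_singleton x)⟩,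
        hcl1 _ (mem_singleton x)⟩
    have h1 := hQ.cont 𝒞 ⟨cl ∅, hcl2 _, hclc _ countable_empty⟩ (by
      intro S hS T hT
      exact ⟨cl (S ∪ T), ⟨hcl2 _, hclc _ (hS.2.union hT.2)⟩,
        subset_union_left.trans (hcl1 _), subset_union_right.trans (hcl1 _)⟩)
      (fun S hS => hS.1) z
    rw [hun, hQ.univ] at h1
    obtain ⟨ζ, hζ, hlim⟩ := mem_closure_iff_seq_limit.1 h1
    choose S hS hSζ using fun n => mem_iUnion₂.1 (hζ n)
    have hcS : (⋃ n, S n).Countable := countable_iUnion fun n => (hS n).2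
    refine ⟨⟨cl (⋃ n, S n), hcl2 _, hclc _ hcS⟩, z, ?_⟩
    have hfix : ∀ n, Q (cl (⋃ n, S n)) (ζ n) = ζ n := by
      intro n
      obtain ⟨w, hw⟩ := hSζ n
      rw [← hw]
      exact hQ.right _ _ (hS n).1 (hcl2 _) ((subset_iUnion S n).trans (hcl1 _)) w
    have h2 : Filter.Tendsto (fun n => Q (cl (⋃ n, S n)) (ζ n)) Filter.atTop
        (𝓝 (Q (cl (⋃ n, S n)) z)) := ((Q _).continuous.tendsto z).comp hlim
    simp only [hfix] at h2
    exact tendsto_nhds_unique h2 hlim

/-- The dual of an Asplund space has a projectional skeleton. -/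
theorem asplund_dual_skeleton {𝕜 : Type u} [RCLike 𝕜] {X : Type v} [NormedAddCommGroup X]
    [NormedSpace 𝕜 X]
    (hX : ∀ E : Submodule 𝕜 X, TopologicalSpace.IsSeparable (E : Set X) →
      TopologicalSpace.SeparableSpace (StrongDual 𝕜 E)) :
    ∃ (Γ : Type v) (_ : PartialOrder Γ) (P : Γ → StrongDual 𝕜 X →L[𝕜] StrongDual 𝕜 X),
      IsProjectionalSkeleton P := by
  obtain ⟨G, hG⟩ := prfGen 𝕜 X (prfFrag 𝕜 X hX)
  obtain ⟨C, hC⟩ := prfLin 𝕜 X G hG
  obtain ⟨M, hM, Q, hQ⟩ := prfProj 𝕜 X C hC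
  exact ⟨_, _, _, skeleton_of_projFam hM hQ⟩

/-- The extension theorem for Asplund spaces, from the one for subspaces of spaces with a
projectional skeleton. -/
theorem asplund_extension_of_skeleton {𝕜 : Type u} [RCLike 𝕜] {X : Type v} [NormedAddCommGroup X]
    [NormedSpace 𝕜 X]
    (hX : ∀ E : Submodule 𝕜 X, TopologicalSpace.IsSeparable (E : Set X) →
      TopologicalSpace.SeparableSpace (StrongDual 𝕜 E))
    {Y : Submodule 𝕜 (StrongDual 𝕜 X)} {Φ : Y → Set X} (hΦ : IsProjectionalGenerator Y Φ) :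
    ∃ Ψ : hull Y → Set X, IsProjectionalGenerator (hull Y) Ψ ∧
      ∀ y : Y, Ψ ⟨y, le_hull Y y.2⟩ = Φ y := by
  obtain ⟨Γ, _, P, hP⟩ := asplund_dual_skeleton hX
  exact skeleton_extension hP hΦ (hull Y).subtypeL (κ := 1) one_pos (fun z => by simp)

end Pool.Agent.Work.MP_6c3bcd_an.Skel
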