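import Pool.Agent.Work.MP_6c3bcd_an.Skel.Skeleton

/-!
# Extension when `D(Y)` embeds in a Banach space with a projectional skeleton
-/

universe u v w t

namespace Pool.Agent.Work.MP_6c3bcd_an.Skel

open Set Topology
open Pool.Agent.Work.MP_6c3bcd_an.Asp

/-- A countable dense subset of the span of a countable set. -/
theorem exists_dense_span {𝕜 : Type u} [RCLike 𝕜] {Z : Type w} [NormedAddCommGroup Z]
    [NormedSpace 𝕜 Z] {S : Set Z} (hS : S.Countable) :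
    ∃ K : Set Z, K.Countable ∧ (Submodule.span 𝕜 S : Set Z) ⊆ closure K := by
  have h1 : TopologicalSpace.IsSeparable (Submodule.span 𝕜 S : Set Z) :=
    (hS.isSeparable).span
  obtain ⟨K, hK, h2⟩ := h1
  exact ⟨K, hK, h2⟩

variable {𝕜 : Type u} [RCLike 𝕜] {X : Type v} [NormedAddCommGroup X] [NormedSpace 𝕜 X]
  {Z : Type w} [NormedAddCommGroup Z] [NormedSpace 𝕜 Z]

/-- Almost nearest points in the image of `D(Y)`. -/
theorem exists_near {Y : Submodule 𝕜 (StrongDual 𝕜 X)} (T : hull Y →L[𝕜] Z) (c : Z) (n : ℕ) :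
    ∃ d : hull Y, ∀ z : hull Y, ‖c - T d‖ ≤ ‖c - T z‖ + 1 / ((n : ℝ) + 1) := by
  have hpos : (0 : ℝ) < 1 / ((n : ℝ) + 1) := by positivity
  have hne : (range fun z : hull Y => T z).Nonempty := ⟨T 0, mem_range_self 0⟩
  obtain ⟨y, ⟨d, rfl⟩, hcd⟩ := (Metric.infDist_lt_iff hne).1
    (lt_add_of_pos_right (Metric.infDist c (range fun z : hull Y => T z)) hpos)
  refine ⟨d, fun z => ?_⟩
  rw [dist_eq_norm] at hcd
  have := Metric.infDist_le_dist_of_mem (x := c) (mem_range_self (f := fun z : hull Y => T z) z)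
  rw [dist_eq_norm] at this
  linarith

/-- A system of countable supports on a Banach space containing `D(Y)` gives the extension. -/
theorem superspace_extension {Y : Submodule 𝕜 (StrongDual 𝕜 X)} {Φ : Y → Set X}
    (hΦ : IsProjectionalGenerator Y Φ) (T : hull Y →L[𝕜] Z) {κ : ℝ} (hκ : 0 < κ)
    (hT : ∀ z, κ * ‖z‖ ≤ ‖T z‖) {𝓘 : Set (Submodule 𝕜 Z × Set Z)} (h𝓘 : Sys Set.univ 𝓘) :
    ∃ Ψ : hull Y → Set X, IsProjectionalGenerator (hull Y) Ψ ∧
      ∀ y : Y, Ψ ⟨y, le_hull Y y.2⟩ = Φ y := by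
  classical
  -- the subspaces of the dual
  let H : {p // p ∈ 𝓘} → Submodule 𝕜 (StrongDual 𝕜 X) := fun i =>
    (i.1.1.comap (T : hull Y →ₗ[𝕜] Z)).map (hull Y).subtype
  have hmem : ∀ (i : {p // p ∈ 𝓘}) (z : StrongDual 𝕜 X) (hz : z ∈ hull Y),
      z ∈ H i ↔ T ⟨z, hz⟩ ∈ i.1.1 := by
    intro i z hz
    constructor
    · rintro ⟨w, hw, rfl⟩
      exact hw
    · intro h
      exact ⟨⟨z, hz⟩, h, rfl⟩
  have hH : ∀ i, IsClosed (H i : Set (StrongDual 𝕜 X)) := by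
    intro i
    have h1 : IsClosed ((i.1.1.comap (T : hull Y →ₗ[𝕜] Z) : Submodule 𝕜 (hull Y)) :
        Set (hull Y)) := ((h𝓘.1 i.1 i.2).1).preimage T.continuous
    have h2 := (isClosed_hull Y).isClosedEmbedding_subtypeVal.isClosedMap _ h1
    have h3 : (H i : Set (StrongDual 𝕜 X)) = Subtype.val ''
        ((i.1.1.comap (T : hull Y →ₗ[𝕜] Z) : Submodule 𝕜 (hull Y)) : Set (hull Y)) := by
      ext z
      constructor
      · rintro ⟨w, hw, rfl⟩
        exact ⟨w, hw, rfl⟩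
      · rintro ⟨w, hw, rfl⟩
        exact ⟨w, hw, rfl⟩
    rw [h3]
    exact h2
  have hcount : ∀ z ∈ hull Y, {i | z ∉ H i}.Countable := by
    intro z hz
    have h1 := (h𝓘.2 (T ⟨z, hz⟩) (mem_univ _)).1
    have h2 : {i : {p // p ∈ 𝓘} | z ∉ H i} ⊆
        Subtype.val ⁻¹' {p | p ∈ 𝓘 ∧ T ⟨z, hz⟩ ∉ p.1} := by
      intro i hi
      refine ⟨i.2, fun h => hi ((hmem i z hz).2 h)⟩
    exact (h1.preimage Subtype.val_injective).mono h2
  -- the countable sets
  choose K hKc hK using fun F : Finset {p // p ∈ 𝓘} =>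
    exists_dense_span (𝕜 := 𝕜) (S := ⋃ i ∈ F, i.1.2)
      (F.countable_toSet.biUnion fun i _ => (h𝓘.1 i.1 i.2).2)
  choose d hd using exists_near T
  let N : Finset {p // p ∈ 𝓘} → Set (StrongDual 𝕜 X) :=
    fun F => ⋃ c ∈ K F, range fun n => ((d c n : hull Y) : StrongDual 𝕜 X)
  have hNY : ∀ F, N F ⊆ hull Y := by
    intro F
    refine iUnion₂_subset fun c _ => ?_
    rintro _ ⟨n, rfl⟩
    exact (d c n).2
  have hNc : ∀ F, (N F).Countable := fun F => (hKc F).biUnion fun c _ => countable_range _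
  -- approximation
  have hgen : ∀ z ∈ hull Y, z ∈ closure
      (⋃ F ∈ {F : Finset {p // p ∈ 𝓘} | ∀ i ∈ F, z ∉ H i}, N F) := by
    intro z hz
    rw [Metric.mem_closure_iff]
    intro ε hε
    set δ : ℝ := κ * ε / 8 with hδ
    have hδ0 : 0 < δ := by positivity
    have h1 := (h𝓘.2 (T ⟨z, hz⟩) (mem_univ _)).2
    obtain ⟨s, hs, hzs⟩ := Metric.mem_closure_iff.1 h1 δ hδ0
    -- a finite set of indices
    have h2 : s ∈ Submodule.span 𝕜 (⋃ i ∈ {i : {p // p ∈ 𝓘} | z ∉ H i}, i.1.2) := by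
      refine Submodule.span_mono ?_ hs
      intro x hx
      obtain ⟨p, ⟨hp, hzp⟩, hxp⟩ := mem_iUnion₂.1 hx
      exact mem_iUnion₂.2 ⟨⟨p, hp⟩, fun h => hzp ((hmem ⟨p, hp⟩ z hz).1 h), hxp⟩
    obtain ⟨F₀, hF₀, hsF₀⟩ := Submodule.mem_span_finite_of_mem_span h2
    have hidx : ∀ g : Z, ∃ s : Finset {p // p ∈ 𝓘},
        (∀ i ∈ s, z ∉ H i) ∧ (g ∈ F₀ → ∃ i ∈ s, g ∈ i.1.2) := by
      intro g
      by_cases hg : g ∈ F₀
      · obtain ⟨i, hi, hgi⟩ := mem_iUnion₂.1 (hF₀ (Finset.mem_coe.2 hg))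
        refine ⟨{i}, fun j hj => ?_, fun _ => ⟨i, Finset.mem_singleton_self i, hgi⟩⟩
        rw [Finset.mem_singleton.1 hj]
        exact hi
      · exact ⟨∅, by simp, fun h => absurd h hg⟩
    choose t ht1 ht2 using hidx
    have h3 : s ∈ Submodule.span 𝕜 (⋃ i ∈ F₀.biUnion t, i.1.2) := by
      refine Submodule.span_mono ?_ hsF₀
      intro g hg
      obtain ⟨i, hi, hgi⟩ := ht2 g (Finset.mem_coe.1 hg)
      exact mem_iUnion₂.2 ⟨i, Finset.mem_biUnion.2 ⟨g, Finset.mem_coe.1 hg, hi⟩, hgi⟩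
    obtain ⟨c, hc, hsc⟩ := Metric.mem_closure_iff.1 (hK (F₀.biUnion t) h3) δ hδ0
    obtain ⟨n, hn⟩ := exists_nat_one_div_lt hδ0
    refine ⟨d c n, ?_, ?_⟩
    · refine mem_iUnion₂.2 ⟨F₀.biUnion t, ?_, mem_iUnion₂.2 ⟨c, hc, mem_range_self n⟩⟩
      intro i hi
      obtain ⟨g, _, hgi⟩ := Finset.mem_biUnion.1 hi
      exact ht1 g i hgi
    · have h4 := hd c n ⟨z, hz⟩
      have h5 : ‖T ⟨z, hz⟩ - c‖ < 2 * δ := by
        have e : T ⟨z, hz⟩ - c = (T ⟨z, hz⟩ - s) + (s - c) := by abel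
        rw [dist_eq_norm] at hzs hsc
        rw [e]
        have := norm_add_le (T ⟨z, hz⟩ - s) (s - c)
        linarith
      set zz : hull Y := ⟨z, hz⟩ with hzz
      have h6 := hT (zz - d c n)
      have e : T (zz - d c n) = (T zz - c) + (c - T (d c n)) := by
        have e0 : T (zz - d c n) = T zz - T (d c n) := T.map_sub zz (d c n)
        rw [e0]; abel
      have h7 := norm_add_le (T zz - c) (c - T (d c n))
      rw [← e] at h7
      rw [norm_sub_rev c (T zz)] at h4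
      have h8 : κ * ‖zz - d c n‖ < κ * ε := by
        have : κ * ε = 8 * δ := by rw [hδ]; ring
        rw [this]
        linarith
      have h9 : ‖zz - d c n‖ < ε := lt_of_mul_lt_mul_left h8 hκ.le
      rw [dist_eq_norm]
      exact h9
  choose C hCY hCc hCN using fun F =>
    exists_countable_of_isSeparable (hNY F) (hNc F).isSeparable
  refine extension_somewhere_dense hΦ
    (fun z => pull Φ (qcl (⋃ F ∈ {F : Finset {p // p ∈ 𝓘} | ∀ i ∈ F, z ∉ H i}, C F))) ?_ ?_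
  · intro z hz
    refine pull_countable hΦ (qcl_countable (Countable.biUnion ?_ fun F _ => hCc F))
    have h1 : {F : Finset {p // p ∈ 𝓘} | ∀ i ∈ F, z ∉ H i} ⊆
        (fun F : Finset {p // p ∈ 𝓘} => (F : Set {p // p ∈ 𝓘})) ⁻¹'
          {t | t.Finite ∧ t ⊆ {i | z ∉ H i}} := fun F hF => ⟨F.finite_toSet, hF⟩
    exact ((countable_ofPred_finite_subset (hcount z hz)).preimage
      Finset.coe_injective).mono h1
  · intro L hL A hAL U hU hne hUA f hf hfN
    set CS : Set (StrongDual 𝕜 X) :=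
      ⋃ F ∈ {F : Finset {p // p ∈ 𝓘} | ∀ i ∈ F, ¬ L ≤ H i}, C F with hCS
    have hCSY : CS ⊆ Y := iUnion₂_subset fun F _ => hCY F
    have h1 : (L : Set (StrongDual 𝕜 X)) ⊆ wcl (qcl CS) := by
      intro l hl
      have h2 := hgen l (hL hl)
      have h3 : (⋃ F ∈ {F : Finset {p // p ∈ 𝓘} | ∀ i ∈ F, l ∉ H i}, N F) ⊆ wcl (qcl CS) := by
        refine iUnion₂_subset fun F hF => ?_
        refine (hCN F).trans (wcl_mono ?_)
        refine Subset.trans ?_ (subset_qcl CS)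
        exact subset_biUnion_of_mem (u := fun F => C F)
          (show F ∈ {F : Finset {p // p ∈ 𝓘} | ∀ i ∈ F, ¬ L ≤ H i} from
            fun i hi h => hF i hi (h hl))
      exact wcl_wcl_subset (closure_subset_wcl _ (closure_mono h3 h2))
    have h2 : ∀ y ∈ qcl CS, ∃ a ∈ A,
        y ∈ qcl (⋃ F ∈ {F : Finset {p // p ∈ 𝓘} | ∀ i ∈ F, a ∉ H i}, C F) := by
      intro y hy
      obtain ⟨F, hF, hyF⟩ := qcl_finite hy
      have hidx : ∀ g : StrongDual 𝕜 X, ∃ s : Finset {p // p ∈ 𝓘},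
          (∀ i ∈ s, ¬ L ≤ H i) ∧ (g ∈ F → g ∈ C s) := by
        intro g
        by_cases hg : g ∈ F
        · obtain ⟨s, hs, hgs⟩ := mem_iUnion₂.1 (hF (Finset.mem_coe.2 hg))
          exact ⟨s, hs, fun _ => hgs⟩
        · exact ⟨∅, by simp, fun h => absurd h hg⟩
      choose s hs1 hs2 using hidx
      obtain ⟨u, hu, huH⟩ := exists_mem_open_not_mem_finset hH (F.biUnion s)
        (fun i hi => by
          obtain ⟨g, _, hgi⟩ := Finset.mem_biUnion.1 hi
          exact hs1 g i hgi) hU hne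
      have hopen : IsOpen (⋂ i ∈ F.biUnion s, ((H i : Set (StrongDual 𝕜 X)))ᶜ) :=
        isOpen_biInter_finset fun i _ => (hH i).isOpen_compl
      obtain ⟨a, ha, haA⟩ := mem_closure_iff.1 (hUA hu) _ hopen (mem_iInter₂.2 huH)
      refine ⟨a, haA, qcl_mono ?_ hyF⟩
      intro g hg
      refine mem_iUnion₂.2 ⟨s g, ?_, hs2 g (Finset.mem_coe.1 hg)⟩
      intro i hi
      exact mem_iInter₂.1 ha i (Finset.mem_biUnion.2 ⟨g, Finset.mem_coe.1 hg, hi⟩)
    refine hΦ.separates_qcl hCSY (wcl_subset_of_subset_wcl h1 hf) ?_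
    intro y hy x hx
    obtain ⟨a, haA, hya⟩ := h2 y hy
    exact hfN a haA x (mem_iUnion₂.2 ⟨y, hya, mem_iUnion.2 ⟨_, hx⟩⟩)

/-- The extension theorem for subspaces of spaces with a projectional skeleton. -/
theorem skeleton_extension [CompleteSpace Z] {Γ : Type t} [PartialOrder Γ] {P : Γ → Z →L[𝕜] Z}
    (hP : IsProjectionalSkeleton P) {Y : Submodule 𝕜 (StrongDual 𝕜 X)} {Φ : Y → Set X}
    (hΦ : IsProjectionalGenerator Y Φ) (T : hull Y →L[𝕜] Z) {κ : ℝ} (hκ : 0 < κ)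
    (hT : ∀ z, κ * ‖z‖ ≤ ‖T z‖) :
    ∃ Ψ : hull Y → Set X, IsProjectionalGenerator (hull Y) Ψ ∧
      ∀ y : Y, Ψ ⟨y, le_hull Y y.2⟩ = Φ y := by
  obtain ⟨𝓘, h𝓘⟩ := skeleton_sys hP
  exact superspace_extension hΦ T hκ hT h𝓘

end Pool.Agent.Work.MP_6c3bcd_an.Skel

namespace Pool.Agent.Work.MP_6c3bcd_an

open Pool.Agent.Work.MP_6c3bcd_an.Skel

/-- `Z` has a system of countable supports: a set `𝓘` of pairs `p = (H, W)` of a closed linear
subspace `H` of `Z` and a countable set `W` of vectors of `Z` such that each `z` in `Z` has a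
countable support `{p ∈ 𝓘 : z ∉ H}` and lies in the closed linear span of the sets `W`, `(H, W)`
in its support. -/
def HasCountableSupports (𝕜 : Type u) [RCLike 𝕜] (Z : Type w) [NormedAddCommGroup Z]
    [NormedSpace 𝕜 Z] : Prop :=
  ∃ 𝓘 : Set (Submodule 𝕜 Z × Set Z), (∀ p ∈ 𝓘, IsClosed (p.1 : Set Z) ∧ p.2.Countable) ∧
    ∀ z : Z, {p | p ∈ 𝓘 ∧ z ∉ p.1}.Countable ∧
      z ∈ closure (Submodule.span 𝕜 (⋃ p ∈ {p | p ∈ 𝓘 ∧ z ∉ p.1}, p.2) : Set Z)

/-- A Banach space with a projectional skeleton has a system of countable supports. -/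
theorem IsProjectionalSkeleton.hasCountableSupports {𝕜 : Type u} [RCLike 𝕜] {Z : Type w}
    [NormedAddCommGroup Z] [NormedSpace 𝕜 Z] [CompleteSpace Z] {Γ : Type t} [PartialOrder Γ]
    {P : Γ → Z →L[𝕜] Z} (hP : IsProjectionalSkeleton P) : HasCountableSupports 𝕜 Z := by
  obtain ⟨𝓘, h1, h2⟩ := skeleton_sys hP
  exact ⟨𝓘, h1, fun z => h2 z (Set.mem_univ z)⟩

/-- Extension when `D(Y)` is isomorphic to a subspace of a space with a system of countable
supports. -/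
theorem HasCountableSupports.extension {𝕜 : Type u} [RCLike 𝕜] {X : Type v}
    [NormedAddCommGroup X] [NormedSpace 𝕜 X] {Z : Type w} [NormedAddCommGroup Z] [NormedSpace 𝕜 Z]
    (hZ : HasCountableSupports 𝕜 Z) {Y : Submodule 𝕜 (StrongDual 𝕜 X)} {Φ : Y → Set X}
    (hΦ : IsProjectionalGenerator Y Φ) (T : hull Y →L[𝕜] Z) {κ : ℝ} (hκ : 0 < κ)
    (hT : ∀ z, κ * ‖z‖ ≤ ‖T z‖) :
    ∃ Ψ : hull Y → Set X, IsProjectionalGenerator (hull Y) Ψ ∧
      ∀ y : Y, Ψ ⟨y, le_hull Y y.2⟩ = Φ y := by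
  obtain ⟨𝓘, h1, h2⟩ := hZ
  exact superspace_extension hΦ T hκ hT (𝓘 := 𝓘) ⟨h1, fun z _ => h2 z⟩

end Pool.Agent.Work.MP_6c3bcd_an
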