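import Pool.Agent.Work.MP_6c3bcd_an.Skel.Orbit
import Pool.Agent.Work.MP_6c3bcd_an.Skel.Final

/-!
# The case of a Σ-subspace is a case of countable orbits
-/

universe u v w

namespace Pool.Agent.Work.MP_6c3bcd_an.Skel

open Set Topology
open Pool.Agent.Work.MP_6c3bcd_an.Asp
open Pool.Agent.Work.MP_6c3bcd_an.Asp.IJump

/-- A system of uniformly bounded projections gives a projectional skeleton. -/
theorem skeleton_of_projFamC {𝕜 : Type u} [RCLike 𝕜] {X : Type v} {E : Type w}
    [NormedAddCommGroup E] [NormedSpace 𝕜 E] {M : Finset X → Set X} (hM : ∀ F, (M F).Countable)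
    {Q : Set X → E →L[𝕜] E} {C : ℝ} (hQ : ProjFamC C M Q) :
    IsProjectionalSkeleton fun S : {S : Set X // Cl M S ∧ S.Countable} => Q (S : Set X) := by
  obtain ⟨cl, hcl1, hcl2, hcl3, hcl4⟩ := prfClos X M hM
  have hclc : ∀ S : Set X, S.Countable → (cl S).Countable := by
    intro S hS
    rw [← Cardinal.le_aleph0_iff_set_countable] at hS ⊢
    exact (hcl4 S).trans (max_le hS le_rfl)
  have hseq : ∀ σ : ℕ → {S : Set X // Cl M S ∧ S.Countable}, Monotone σ →
      Cl M (⋃₀ (range fun n => (σ n : Set X))) ∧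
        (⋃₀ (range fun n => (σ n : Set X))).Countable := by
    intro σ hσ
    refine ⟨cl_sUnion (range_nonempty _) ?_ ?_, ?_⟩
    · rintro _ ⟨n, rfl⟩ _ ⟨m, rfl⟩
      exact ⟨σ (max n m), mem_range_self _, hσ (le_max_left n m), hσ (le_max_right n m)⟩
    · rintro _ ⟨n, rfl⟩
      exact (σ n).2.1
    · refine (countable_range _).sUnion ?_
      rintro _ ⟨n, rfl⟩
      exact (σ n).2.2
  have hlub : ∀ σ : ℕ → {S : Set X // Cl M S ∧ S.Countable}, ∀ hσ : Monotone σ,
      IsLUB (range σ) ⟨⋃₀ (range fun n => (σ n : Set X)), hseq σ hσ⟩ := by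
    intro σ hσ
    constructor
    · rintro _ ⟨n, rfl⟩
      exact subset_sUnion_of_mem (mem_range_self n)
    · intro t ht
      refine sUnion_subset ?_
      rintro _ ⟨n, rfl⟩
      exact ht (mem_range_self n)
  refine
    { nonempty := ⟨⟨cl ∅, hcl2 _, hclc _ countable_empty⟩⟩
      directed := fun s t => ⟨⟨cl (s ∪ t), hcl2 _, hclc _ (s.2.2.union t.2.2)⟩,
        subset_union_left.trans (hcl1 _), subset_union_right.trans (hcl1 _)⟩
      separable := fun s => hQ.sep s s.2.1 s.2.2
      comp_left := fun s t h z => hQ.left s t s.2.1 t.2.1 h z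
      comp_right := fun s t h z => hQ.right s t s.2.1 t.2.1 h z
      exists_sup := fun σ hσ => ⟨_, hlub σ hσ⟩
      range_sup := ?_
      cover := ?_ }
  · intro σ s hσ hs
    have hs' := hs.unique (hlub σ hσ)
    subst hs'
    apply Subset.antisymm
    · rintro _ ⟨z, rfl⟩
      have h1 := hQ.cont (range fun n => (σ n : Set X)) (range_nonempty _) (by
        rintro _ ⟨n, rfl⟩ _ ⟨m, rfl⟩
        exact ⟨σ (max n m), mem_range_self _, hσ (le_max_left n m), hσ (le_max_right n m)⟩) (by
        rintro _ ⟨n, rfl⟩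
        exact (σ n).2.1) z
      rwa [biUnion_range] at h1
    · have hclosed : IsClosed (range (Q (⋃₀ (range fun n => (σ n : Set X))))) := by
        have heq : range (Q (⋃₀ (range fun n => (σ n : Set X)))) =
            {z | Q (⋃₀ (range fun n => (σ n : Set X))) z = z} := by
          ext z
          constructor
          · rintro ⟨w, rfl⟩
            exact hQ.right _ _ (hseq σ hσ).1 (hseq σ hσ).1 Subset.rfl w
          · intro h
            exact ⟨z, h⟩
        rw [heq]
        exact isClosed_eq (Q _).continuous continuous_id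
      refine hclosed.closure_subset_iff.2 (iUnion_subset fun n => ?_)
      rintro _ ⟨z, rfl⟩
      exact ⟨Q (σ n : Set X) z, hQ.right _ _ (σ n).2.1 (hseq σ hσ).1
        (subset_sUnion_of_mem (mem_range_self n)) z⟩
  · intro z
    set 𝒞 : Set (Set X) := {S | Cl M S ∧ S.Countable} with h𝒞
    have hun : ⋃₀ 𝒞 = univ := by
      refine eq_univ_of_forall fun x => ?_
      exact mem_sUnion.2 ⟨cl {x}, ⟨hcl2 _, hclc _ (countable_singleton x)⟩,
        hcl1 _ (mem_singleton x)⟩
    have h1 := hQ.cont 𝒞 ⟨cl ∅, hcl2 _, hclc _ countable_empty⟩ (by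
      intro S hS T hT
      exact ⟨cl (S ∪ T), ⟨hcl2 _, hclc _ (hS.2.union hT.2)⟩,
        subset_union_left.trans (hcl1 _), subset_union_right.trans (hcl1 _)⟩)
      (fun S hS => hS.1) z
    rw [hun, hQ.univ] at h1
    obtain ⟨ζ, hζ, hlim⟩ := mem_closure_iff_seq_limit.1 h1
    choose S hS hSζ using fun n => mem_iUnion₂.1 (hζ n)
    have hcS : (⋃ n, S n).Countable := countable_iUnion fun n => (hS n).2
    refine ⟨⟨cl (⋃ n, S n), hcl2 _, hclc _ hcS⟩, z, ?_⟩
    have hfix : ∀ n, Q (cl (⋃ n, S n)) (ζ n) = ζ n := by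
      intro n
      obtain ⟨w, hw⟩ := hSζ n
      rw [← hw]
      exact hQ.right _ _ (hS n).1 (hcl2 _) ((subset_iUnion S n).trans (hcl1 _)) w
    have h2 : Filter.Tendsto (fun n => Q (cl (⋃ n, S n)) (ζ n)) Filter.atTop
        (𝓝 (Q (cl (⋃ n, S n)) z)) := ((Q _).continuous.tendsto z).comp hlim
    simp only [hfix] at h2
    exact tendsto_nhds_unique h2 hlim

variable {𝕜 : Type u} [RCLike 𝕜] {X : Type v} [NormedAddCommGroup X] [NormedSpace 𝕜 X]

/-- Projection onto a closed subspace along another one. -/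
theorem exists_proj [CompleteSpace X] {A B : Submodule 𝕜 X} (hA : IsClosed (A : Set X))
    (hB : IsClosed (B : Set X)) {c : ℝ} (hc : 0 < c)
    (h : ∀ a ∈ A, ∀ b ∈ B, c * ‖a‖ ≤ ‖a + b‖)
    (hd : ∀ x : X, x ∈ closure {y | ∃ a ∈ A, ∃ b ∈ B, a + b = y}) :
    ∃ q : X →L[𝕜] X, (∀ x, ‖q x‖ ≤ c⁻¹ * ‖x‖) ∧ (∀ a ∈ A, q a = a) ∧ (∀ b ∈ B, q b = 0) ∧
      ∀ x, q x ∈ A := by
  have hex : ∀ x : X, ∃ a ∈ A, x - a ∈ B := by
    intro x
    obtain ⟨y, hy, hlim⟩ := mem_closure_iff_seq_limit.1 (hd x)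
    choose a ha b hb hab using hy
    have hcs : CauchySeq a := by
      have hycs : CauchySeq y := hlim.cauchySeq
      rw [Metric.cauchySeq_iff] at hycs ⊢
      intro ε hε
      obtain ⟨N, hN⟩ := hycs (c * ε) (by positivity)
      refine ⟨N, fun m hm n hn => ?_⟩
      have h1 := hN m hm n hn
      have h2 := h (a m - a n) (A.sub_mem (ha m) (ha n)) (b m - b n) (B.sub_mem (hb m) (hb n))
      have e : a m - a n + (b m - b n) = y m - y n := by
        rw [← hab m, ← hab n]
        abel
      rw [e] at h2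
      rw [dist_eq_norm] at h1 ⊢
      exact lt_of_mul_lt_mul_left (h2.trans_lt h1) hc.le
    obtain ⟨α, hα⟩ := cauchySeq_tendsto_of_complete hcs
    refine ⟨α, hA.mem_of_tendsto hα (Filter.Eventually.of_forall ha), ?_⟩
    refine hB.mem_of_tendsto (hlim.sub hα) (Filter.Eventually.of_forall fun n => ?_)
    have e : y n - a n = b n := by
      rw [← hab n]
      abel
    change y n - a n ∈ B
    rw [e]
    exact hb n
  choose f hfA hfB using hex
  have huniq : ∀ x, ∀ a ∈ A, x - a ∈ B → f x = a := by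
    intro x a ha hxa
    have h1 := h (f x - a) (A.sub_mem (hfA x) ha) ((x - f x) - (x - a))
      (B.sub_mem (hfB x) hxa)
    have e : f x - a + (x - f x - (x - a)) = 0 := by abel
    rw [e, norm_zero] at h1
    have h2 : ‖f x - a‖ ≤ 0 := by
      by_contra hcon
      have := mul_pos hc (not_le.1 hcon)
      linarith
    exact sub_eq_zero.1 (norm_le_zero_iff.1 h2)
  have hbd : ∀ x, ‖f x‖ ≤ c⁻¹ * ‖x‖ := by
    intro x
    have h1 := h (f x) (hfA x) (x - f x) (hfB x)
    rw [add_sub_cancel] at h1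
    rw [← div_eq_inv_mul, le_div_iff₀ hc, mul_comm]
    exact h1
  let g : X →ₗ[𝕜] X :=
    { toFun := f
      map_add' := by
        intro x y
        refine huniq _ _ (A.add_mem (hfA x) (hfA y)) ?_
        have e : x + y - (f x + f y) = (x - f x) + (y - f y) := by abel
        rw [e]
        exact B.add_mem (hfB x) (hfB y)
      map_smul' := by
        intro r x
        refine huniq _ _ (A.smul_mem r (hfA x)) ?_
        have e : r • x - r • f x = r • (x - f x) := (smul_sub _ _ _).symm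
        rw [RingHom.id_apply, e]
        exact B.smul_mem r (hfB x) }
  refine ⟨g.mkContinuous c⁻¹ hbd, hbd, ?_, ?_, hfA⟩
  · intro a ha
    refine huniq a a ha ?_
    rw [sub_self]
    exact B.zero_mem
  · intro b hb
    refine huniq b 0 A.zero_mem ?_
    rw [sub_zero]
    exact hb

/-- The canonical projections attached to a linearly dense set on which the elements of a norming
subspace are countably supported. -/
theorem sigma_projFam [CompleteSpace X] {D : Submodule 𝕜 (StrongDual 𝕜 X)} (hD : IsNorming D)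
    {G : Set X} (hG : Dense (Submodule.span 𝕜 G : Set X))
    (hcount : ∀ z ∈ D, {x | x ∈ G ∧ z x ≠ 0}.Countable) :
    ∃ (C : ℝ) (M : Finset X → Set X), (∀ F, (M F).Countable) ∧
      ∃ Q : Set X → X →L[𝕜] X, ProjFamC C M Q ∧
        ∀ S, Cl M S → (∀ x ∈ G, x ∈ S → Q S x = x) ∧ ∀ x ∈ G, x ∉ S → Q S x = 0 := by
  classical
  obtain ⟨c, hc, nm, hnm⟩ := exists_norming_functional hD
  choose K hKc hK using fun F : Finset X =>
    exists_dense_span (𝕜 := 𝕜) (S := (F : Set X) ∩ G) (F.countable_toSet.mono inter_subset_left)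
  let M : Finset X → Set X := fun F => ⋃ u ∈ K F, {x | x ∈ G ∧ nm u x ≠ 0}
  have hM : ∀ F, (M F).Countable := fun F => (hKc F).biUnion fun u _ => hcount _ (hnm u).1
  let A : Set X → Submodule 𝕜 X := fun S => (Submodule.span 𝕜 (S ∩ G)).topologicalClosure
  let B : Set X → Submodule 𝕜 X := fun S => (Submodule.span 𝕜 (G \ S)).topologicalClosure
  have hAc : ∀ S, IsClosed (A S : Set X) := fun S => Submodule.isClosed_topologicalClosure _
  have hBc : ∀ S, IsClosed (B S : Set X) := fun S => Submodule.isClosed_topologicalClosure _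
  have hkey : ∀ S, Cl M S → ∀ a ∈ A S, ∀ b ∈ B S, c * ‖a‖ ≤ ‖a + b‖ := by
    intro S hS
    have h1 : ∀ a ∈ Submodule.span 𝕜 (S ∩ G), ∀ b ∈ Submodule.span 𝕜 (G \ S),
        c * ‖a‖ ≤ ‖a + b‖ := by
      intro a ha b hb
      obtain ⟨F, hF, haF⟩ := Submodule.mem_span_finite_of_mem_span ha
      have haK : a ∈ closure (K F) := by
        refine hK F (Submodule.span_mono ?_ haF)
        intro x hx
        exact ⟨hx, (hF hx).2⟩
      have hcl : IsClosed {a : X | c * ‖a‖ ≤ ‖a + b‖} :=
        isClosed_le (continuous_const.mul continuous_norm)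
          (continuous_id.add continuous_const).norm
      refine hcl.closure_subset_iff.2 ?_ haK
      intro u hu
      have hb0 : nm u b = 0 := by
        have h2 : Submodule.span 𝕜 (G \ S) ≤ LinearMap.ker (nm u : X →ₗ[𝕜] 𝕜) := by
          refine Submodule.span_le.2 fun x hx => ?_
          by_contra hcon
          exact hx.2 (hS F (fun y hy => (hF hy).1) (mem_iUnion₂.2 ⟨u, hu, hx.1, hcon⟩))
        exact h2 hb
      have h3 := (hnm u).2.2
      have h4 : nm u (u + b) = nm u u := by rw [map_add, hb0, add_zero]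
      have h5 : ‖nm u (u + b)‖ ≤ 1 * ‖u + b‖ :=
        (nm u).le_of_opNorm_le (hnm u).2.1 _
      rw [h4, one_mul] at h5
      exact h3.trans h5
    intro a ha b hb
    have hA' : a ∈ closure (Submodule.span 𝕜 (S ∩ G) : Set X) := by
      rw [← Submodule.topologicalClosure_coe]
      exact ha
    have hB' : b ∈ closure (Submodule.span 𝕜 (G \ S) : Set X) := by
      rw [← Submodule.topologicalClosure_coe]
      exact hb
    have hcl : IsClosed {p : X × X | c * ‖p.1‖ ≤ ‖p.1 + p.2‖} :=
      isClosed_le (continuous_const.mul continuous_fst.norm)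
        (continuous_fst.add continuous_snd).norm
    have hmem : ((a, b) : X × X) ∈ closure ((Submodule.span 𝕜 (S ∩ G) : Set X) ×ˢ
        (Submodule.span 𝕜 (G \ S) : Set X)) := by
      rw [closure_prod_eq]
      exact ⟨hA', hB'⟩
    refine hcl.closure_subset_iff.2 ?_ hmem
    rintro ⟨a, b⟩ ⟨ha, hb⟩
    exact h1 a ha b hb
  have hdense : ∀ S, ∀ x : X, x ∈ closure {y | ∃ a ∈ A S, ∃ b ∈ B S, a + b = y} := by
    intro S x
    refine closure_mono ?_ (hG x)
    intro y hy
    have h1 : Submodule.span 𝕜 G ≤ A S ⊔ B S := by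
      refine Submodule.span_le.2 fun g hg => ?_
      by_cases hgS : g ∈ S
      · exact Submodule.mem_sup_left (Submodule.le_topologicalClosure _
          (Submodule.subset_span ⟨hgS, hg⟩))
      · exact Submodule.mem_sup_right (Submodule.le_topologicalClosure _
          (Submodule.subset_span ⟨hg, hgS⟩))
    obtain ⟨a, ha, b, hb, hab⟩ := Submodule.mem_sup.1 (h1 hy)
    exact ⟨a, ha, b, hb, hab⟩
  obtain ⟨Q, hQ⟩ : ∃ Q : Set X → X →L[𝕜] X, ∀ S, Cl M S → (∀ x, ‖Q S x‖ ≤ c⁻¹ * ‖x‖) ∧
      (∀ a ∈ A S, Q S a = a) ∧ (∀ b ∈ B S, Q S b = 0) ∧ ∀ x, Q S x ∈ A S := by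
    refine ⟨fun S => if h : Cl M S then
      Classical.choose (exists_proj (hAc S) (hBc S) hc (hkey S h) (hdense S)) else 0, ?_⟩
    intro S hS
    simp only [dif_pos hS]
    exact Classical.choose_spec (exists_proj (hAc S) (hBc S) hc (hkey S hS) (hdense S))
  have hin : ∀ S, Cl M S → ∀ x ∈ G, x ∈ S → Q S x = x := fun S hS x hx hxS =>
    (hQ S hS).2.1 x (Submodule.le_topologicalClosure _ (Submodule.subset_span ⟨hxS, hx⟩))
  have hout : ∀ S, Cl M S → ∀ x ∈ G, x ∉ S → Q S x = 0 := fun S hS x hx hxS =>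
    (hQ S hS).2.2.1 x (Submodule.le_topologicalClosure _ (Submodule.subset_span ⟨hx, hxS⟩))
  refine ⟨c⁻¹, M, hM, Q, ?_, fun S hS => ⟨hin S hS, hout S hS⟩⟩
  refine
    { pos := by positivity
      norm_le := fun S hS z => (hQ S hS).1 z
      left := ?_
      right := ?_
      cont := ?_
      sep := ?_
      univ := ?_ }
  · intro S T hS hT hST z
    have h1 : (Q S).comp (Q T) = Q S := by
      refine ContinuousLinearMap.ext_on hG fun x hx => ?_
      rw [ContinuousLinearMap.comp_apply]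
      by_cases hxT : x ∈ T
      · rw [hin T hT x hx hxT]
      · rw [hout T hT x hx hxT, map_zero, hout S hS x hx fun h => hxT (hST h)]
    exact DFunLike.congr_fun h1 z
  · intro S T hS hT hST z
    refine (hQ T hT).2.1 _ ?_
    have h1 : A S ≤ A T := Submodule.topologicalClosure_mono
      (Submodule.span_mono (inter_subset_inter_left _ hST))
    exact h1 ((hQ S hS).2.2.2 z)
  · intro 𝒞 hne hdir h𝒞 z
    have hcl : Cl M (⋃₀ 𝒞) := cl_sUnion hne hdir h𝒞
    have h1 := (hQ _ hcl).2.2.2 z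
    rw [← SetLike.mem_coe, Submodule.topologicalClosure_coe] at h1
    refine closure_mono ?_ h1
    intro u hu
    obtain ⟨F, hF, huF⟩ := Submodule.mem_span_finite_of_mem_span hu
    have hF' : (F : Set X) ⊆ ⋃ S ∈ 𝒞, S := by
      rw [← sUnion_eq_biUnion]
      exact fun x hx => (hF hx).1
    obtain ⟨S, hS, hFS⟩ := DirectedOn.exists_mem_subset_of_finset_subset_biUnion
      (f := fun S : Set X => S) hne hdir hF'
    refine mem_iUnion₂.2 ⟨S, hS, u, (hQ S (h𝒞 S hS)).2.1 u ?_⟩
    refine Submodule.le_topologicalClosure _ (Submodule.span_mono ?_ huF)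
    exact fun x hx => ⟨hFS hx, (hF hx).2⟩
  · intro S hS hct
    refine TopologicalSpace.IsSeparable.mono (s := (A S : Set X)) ?_ ?_
    · rw [Submodule.topologicalClosure_coe]
      exact ((hct.mono inter_subset_left).isSeparable.span).closure
    · rintro _ ⟨z, rfl⟩
      exact (hQ S hS).2.2.2 z
  · intro z
    have hU : Cl M (Set.univ : Set X) := fun F _ => Set.subset_univ _
    have h1 : Q univ = ContinuousLinearMap.id 𝕜 X := by
      refine ContinuousLinearMap.ext_on hG fun x hx => ?_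
      rw [hin univ hU x hx (mem_univ x)]
      rfl
    rw [h1]
    rfl

/-- The extension theorem for Σ-subspaces, from the one for skeletons with countable orbits. -/
theorem sigma_extension_of_orbits [CompleteSpace X] {Y : Submodule 𝕜 (StrongDual 𝕜 X)}
    {Φ : Y → Set X} (hΦ : IsProjectionalGenerator Y Φ) (G : Set X)
    (hG : Dense (Submodule.span 𝕜 G : Set X))
    (hcount : ∀ z ∈ hull Y, {x | x ∈ G ∧ z x ≠ 0}.Countable) :
    ∃ Ψ : hull Y → Set X, IsProjectionalGenerator (hull Y) Ψ ∧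
      ∀ y : Y, Ψ ⟨y, le_hull Y y.2⟩ = Φ y := by
  obtain ⟨C, M, hM, Q, hQ, hval⟩ := sigma_projFam (hΦ.norming.mono (le_hull Y)) hG hcount
  obtain ⟨cl, hcl1, hcl2, hcl3, hcl4⟩ := prfClos X M hM
  refine orbit_extension (skeleton_of_projFamC hM hQ) hΦ ?_ hG ?_
  · intro z hz
    have hc := hcount z hz
    have hclc : (cl {x | x ∈ G ∧ z x ≠ 0}).Countable := by
      rw [← Cardinal.le_aleph0_iff_set_countable] at hc ⊢
      exact (hcl4 _).trans (max_le hc le_rfl)
    refine ⟨⟨cl {x | x ∈ G ∧ z x ≠ 0}, hcl2 _, hclc⟩, fun x => ?_⟩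
    have h1 : z.comp (Q (cl {x | x ∈ G ∧ z x ≠ 0})) = z := by
      refine ContinuousLinearMap.ext_on hG fun x hx => ?_
      rw [ContinuousLinearMap.comp_apply]
      by_cases hxS : x ∈ cl {x | x ∈ G ∧ z x ≠ 0}
      · rw [(hval _ (hcl2 _)).1 x hx hxS]
      · rw [(hval _ (hcl2 _)).2 x hx hxS, map_zero]
        by_contra hne
        exact hxS (hcl1 _ ⟨hx, fun h => hne h.symm⟩)
    exact DFunLike.congr_fun h1 x
  · intro x hx s
    refine ((countable_singleton (0 : X)).insert x).mono ?_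
    rintro y ⟨r, -, rfl⟩
    by_cases hxr : x ∈ (r : Set X)
    · exact Or.inl ((hval _ r.2.1).1 x hx hxr)
    · exact Or.inr ((hval _ r.2.1).2 x hx hxr)

end Pool.Agent.Work.MP_6c3bcd_an.Skel
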