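import Mathlib

/-!
# Projectional skeletons: definition
-/

namespace Pool.Agent.Work.MP_6c3bcd_an

/-- A projectional skeleton on `Z`: a family `(P s)` of bounded linear projections on `Z` indexed by
a nonempty up-directed poset such that each `P s` has separable range, `P s P t = P t P s = P s`
whenever `s ≤ t` (for `s = t` this says that `P s` is a projection), every increasing sequence `σ`
of indices has a supremum `s` and the range of `P s` is the closure of the union of the ranges of
the `P (σ n)`, and the ranges cover `Z`. -/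
structure IsProjectionalSkeleton {𝕜 : Type*} [RCLike 𝕜] {Z : Type*} [NormedAddCommGroup Z]
    [NormedSpace 𝕜 Z] {Γ : Type*} [PartialOrder Γ] (P : Γ → Z →L[𝕜] Z) : Prop where
  nonempty : Nonempty Γ
  directed : ∀ s t : Γ, ∃ r, s ≤ r ∧ t ≤ r
  separable : ∀ s, TopologicalSpace.IsSeparable (Set.range (P s))
  comp_left : ∀ s t, s ≤ t → ∀ z, P s (P t z) = P s z
  comp_right : ∀ s t, s ≤ t → ∀ z, P t (P s z) = P s z
  exists_sup : ∀ σ : ℕ → Γ, Monotone σ → ∃ s, IsLUB (Set.range σ) s
  range_sup : ∀ (σ : ℕ → Γ) (s : Γ), Monotone σ → IsLUB (Set.range σ) s →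
    Set.range (P s) = closure (⋃ n, Set.range (P (σ n)))
  cover : ∀ z, ∃ s, z ∈ Set.range (P s)

end Pool.Agent.Work.MP_6c3bcd_an
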