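import Pool.Agent.Work.MP_6c3bcd_an.Bd.B03

/-!
# Systems of uniformly bounded projections give systems of countable supports

Versions with a constant `C` of the lemmas JUMP and IND of `Bd/B03.lean`.
-/

universe u v w

namespace Pool.Agent.Work.MP_6c3bcd_an.Skel

open Set Topology
open Pool.Agent.Work.MP_6c3bcd_an.Asp
open Pool.Agent.Work.MP_6c3bcd_an.Asp.IJump
open Pool.Agent.Work.MP_6c3bcd_an.Asp.IInd

/-- A system of projections, uniformly bounded by `C`, indexed by the closed sets. -/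
structure ProjFamC {𝕜 : Type u} [RCLike 𝕜] {X : Type v} {E : Type w} [NormedAddCommGroup E]
    [NormedSpace 𝕜 E] (C : ℝ) (M : Finset X → Set X) (Q : Set X → E →L[𝕜] E) : Prop where
  pos : 0 ≤ C
  norm_le : ∀ S, Cl M S → ∀ z, ‖Q S z‖ ≤ C * ‖z‖
  left : ∀ S T, Cl M S → Cl M T → S ⊆ T → ∀ z, Q S (Q T z) = Q S z
  right : ∀ S T, Cl M S → Cl M T → S ⊆ T → ∀ z, Q T (Q S z) = Q S z
  cont : ∀ 𝒞 : Set (Set X), 𝒞.Nonempty → DirectedOn (· ⊆ ·) 𝒞 → (∀ S ∈ 𝒞, Cl M S) →
    ∀ z, Q (⋃₀ 𝒞) z ∈ closure (⋃ S ∈ 𝒞, Set.range (Q S))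
  sep : ∀ S, Cl M S → S.Countable → TopologicalSpace.IsSeparable (Set.range (Q S))
  univ : ∀ z, Q Set.univ z = z

section

variable {𝕜 : Type u} [RCLike 𝕜] {X : Type v} {E : Type w} [NormedAddCommGroup E]
  [NormedSpace 𝕜 E] {M : Finset X → Set X} {Q : Set X → E →L[𝕜] E} {C : ℝ}

theorem approxC (hQ : ProjFamC C M Q) {𝒞 : Set (Set X)} (hne : 𝒞.Nonempty)
    (hdir : DirectedOn (· ⊆ ·) 𝒞) (h : ∀ S ∈ 𝒞, Cl M S) (z : E) {ε : ℝ} (hε : 0 < ε) :
    ∃ P₀ ∈ 𝒞, ∀ P, Cl M P → P₀ ⊆ P → P ⊆ ⋃₀ 𝒞 → ‖Q (⋃₀ 𝒞) z - Q P z‖ ≤ ε := by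
  have hC := hQ.pos
  have h1 := hQ.cont 𝒞 hne hdir h z
  rw [Metric.mem_closure_iff] at h1
  obtain ⟨u, hu, hdist⟩ := h1 (ε / (1 + C)) (by positivity)
  rw [mem_iUnion₂] at hu
  obtain ⟨S, hS, v, rfl⟩ := hu
  refine ⟨S, hS, fun P hP hSP hPR => ?_⟩
  have e1 : Q P z = Q P (Q (⋃₀ 𝒞) z) := (hQ.left P (⋃₀ 𝒞) hP (cl_sUnion hne hdir h) hPR z).symm
  have e2 : Q P (Q S v) = Q S v := hQ.right S P (h S hS) hP hSP v
  have e3 : Q (⋃₀ 𝒞) z - Q P z = (Q (⋃₀ 𝒞) z - Q S v) - Q P (Q (⋃₀ 𝒞) z - Q S v) := by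
    rw [map_sub, e2, ← e1]
    abel
  rw [e3]
  refine (norm_sub_le _ _).trans ?_
  have h2 := hQ.norm_le P hP (Q (⋃₀ 𝒞) z - Q S v)
  rw [dist_eq_norm] at hdist
  calc ‖Q (⋃₀ 𝒞) z - Q S v‖ + ‖Q P (Q (⋃₀ 𝒞) z - Q S v)‖
      ≤ ‖Q (⋃₀ 𝒞) z - Q S v‖ + C * ‖Q (⋃₀ 𝒞) z - Q S v‖ := by linarith
    _ = (1 + C) * ‖Q (⋃₀ 𝒞) z - Q S v‖ := by ring
    _ ≤ (1 + C) * (ε / (1 + C)) := mul_le_mul_of_nonneg_left hdist.le (by positivity)
    _ = ε := by field_simp

variable {I : Type v} [LinearOrder I]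

theorem no_accC (hQ : ProjFamC C M Q) {B : Set X} {T : I → Set X} (hB : Cl M B)
    (hT : ∀ i, Cl M (T i)) (hBT : ∀ i, B ⊆ T i) (hmono : Monotone T) (z : E) {ε : ℝ} (hε : 0 < ε)
    (D : Set I)
    (hinf : ({i | ε < ‖Q (T i) z - Q (low B T i) z‖} ∩ D).Infinite)
    (hfin : ∀ j ∈ D, ({i | ε < ‖Q (T i) z - Q (low B T i) z‖} ∩ Iio j).Finite) : False := by
  obtain ⟨P₀, hP₀, hP⟩ := approxC hQ (ch_nonempty B T D) (ch_directed hBT hmono D)
    (ch_cl hB hT D) z (show 0 < ε / 2 by linarith)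
  have hj0 : ∃ j0 ∈ D, P₀ ⊆ T j0 := by
    rcases hP₀ with rfl | ⟨j, hj, rfl⟩
    · obtain ⟨j, hj⟩ := hinf.nonempty
      exact ⟨j, hj.2, hBT j⟩
    · exact ⟨j, hj, Subset.rfl⟩
  obtain ⟨j0, hj0D, hPj0⟩ := hj0
  have h1 : (({i | ε < ‖Q (T i) z - Q (low B T i) z‖} ∩ D) \
      (({i | ε < ‖Q (T i) z - Q (low B T i) z‖} ∩ Iio j0) ∪ {j0})).Nonempty :=
    (hinf.sdiff ((hfin j0 hj0D).union (finite_singleton j0))).nonempty
  obtain ⟨i, ⟨hiA, hiD⟩, hi⟩ := h1
  have hji : j0 < i := by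
    rcases lt_trichotomy i j0 with h | h | h
    · exact absurd (Or.inl ⟨hiA, h⟩) hi
    · exact absurd (Or.inr h) hi
    · exact h
  have hTi : T i ⊆ ⋃₀ (ch B T D) := subset_sUnion_of_mem (Or.inr ⟨i, hiD, rfl⟩)
  have hlow : low B T i ⊆ T i := by
    unfold low
    exact union_subset (hBT i) (iUnion₂_subset fun j hj => hmono (le_of_lt hj))
  have h2 := hP (T i) (hT i) (hPj0.trans (hmono hji.le)) hTi
  have hcl : Cl M (low B T i) := by
    rw [low_eq]
    exact cl_sUnion (ch_nonempty _ _ _) (ch_directed hBT hmono _) (ch_cl hB hT _)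
  have h3 := hP (low B T i) hcl (hPj0.trans (by
    unfold low
    exact (subset_iUnion₂ (s := fun j (_ : j ∈ {j | j < i}) => T j) j0 hji).trans
      subset_union_right)) (hlow.trans hTi)
  have hiA' : ε < ‖Q (T i) z - Q (low B T i) z‖ := hiA
  have h4 : Q (T i) z - Q (low B T i) z =
      (Q (⋃₀ (ch B T D)) z - Q (low B T i) z) - (Q (⋃₀ (ch B T D)) z - Q (T i) z) := by abel
  rw [h4] at hiA'
  have h5 := norm_sub_le (Q (⋃₀ (ch B T D)) z - Q (low B T i) z) (Q (⋃₀ (ch B T D)) z - Q (T i) z)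
  linarith

theorem gen_stepC (hQ : ProjFamC C M Q) {B : Set X} {T : I → Set X} (hB : Cl M B)
    (hT : ∀ i, Cl M (T i)) (hBT : ∀ i, B ⊆ T i) (hmono : Monotone T) (z : E)
    (L : Submodule 𝕜 E) (hL : IsClosed (L : Set E)) (hBL : Q B z ∈ L) (D : Set I)
    (hD : ∀ j ∈ D, Q (T j) z ∈ L) : Q (⋃₀ (ch B T D)) z ∈ L := by
  have h1 : Q (⋃₀ (ch B T D)) z ∈ closure (L : Set E) := by
    rw [Metric.mem_closure_iff]
    intro ε hε
    obtain ⟨P₀, hP₀, hP⟩ := approxC hQ (ch_nonempty B T D) (ch_directed hBT hmono D)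
      (ch_cl hB hT D) z (show 0 < ε / 2 by linarith)
    refine ⟨Q P₀ z, ?_, ?_⟩
    · rcases hP₀ with rfl | ⟨j, hj, rfl⟩
      · exact hBL
      · exact hD j hj
    · have h2 := hP P₀ (ch_cl hB hT D P₀ hP₀) Subset.rfl (subset_sUnion_of_mem hP₀)
      rw [dist_eq_norm]
      linarith
  rwa [hL.closure_eq] at h1

theorem jumpC [WellFoundedLT I] (hQ : ProjFamC C M Q) (B : Set X) (T : I → Set X)
    (hB : Cl M B) (hT : ∀ i, Cl M (T i)) (hBT : ∀ i, B ⊆ T i) (hmono : Monotone T) :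
    (∀ i, Cl M (low B T i)) ∧
      (∀ z, {i | Q (T i) z - Q (low B T i) z ≠ 0}.Countable) ∧
      ∀ z, Q (B ∪ ⋃ i, T i) z ∈ closure (Submodule.span 𝕜
        ({Q B z} ∪ Set.range fun i => Q (T i) z - Q (low B T i) z) : Set E) := by
  have hclow : ∀ i, Cl M (low B T i) := by
    intro i
    rw [low_eq]
    exact cl_sUnion (ch_nonempty _ _ _) (ch_directed hBT hmono _) (ch_cl hB hT _)
  refine ⟨hclow, ?_, ?_⟩
  · intro z
    have h1 : {i | Q (T i) z - Q (low B T i) z ≠ 0} ⊆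
        ⋃ n : ℕ, {i | 1 / ((n : ℝ) + 1) < ‖Q (T i) z - Q (low B T i) z‖} := by
      intro i hi
      obtain ⟨n, hn⟩ := exists_nat_one_div_lt (norm_pos_iff.2 hi)
      exact mem_iUnion.2 ⟨n, hn⟩
    refine Set.Countable.mono h1 (countable_iUnion fun n => Set.Finite.countable ?_)
    have hε : (0 : ℝ) < 1 / ((n : ℝ) + 1) := by positivity
    by_contra hinf
    by_cases hJ : ∃ i : I,
        ({i | 1 / ((n : ℝ) + 1) < ‖Q (T i) z - Q (low B T i) z‖} ∩ Iio i).Infinite
    · have hwf : WellFounded ((· < ·) : I → I → Prop) := wellFounded_lt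
      have hmin := hwf.min_mem {i : I |
        ({i | 1 / ((n : ℝ) + 1) < ‖Q (T i) z - Q (low B T i) z‖} ∩ Iio i).Infinite} hJ
      refine no_accC hQ hB hT hBT hmono z hε _ hmin fun j hj => ?_
      by_contra hcon
      exact hwf.not_lt_min {i : I |
        ({i | 1 / ((n : ℝ) + 1) < ‖Q (T i) z - Q (low B T i) z‖} ∩ Iio i).Infinite} hcon hj
    · push Not at hJ
      refine no_accC hQ hB hT hBT hmono z hε univ ?_ fun j _ => hJ j
      rw [inter_univ]
      exact hinf
  · intro z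
    set L : Submodule 𝕜 E := (Submodule.span 𝕜
        ({Q B z} ∪ Set.range fun i => Q (T i) z - Q (low B T i) z)).topologicalClosure with hLdef
    have hLc : IsClosed (L : Set E) := Submodule.isClosed_topologicalClosure _
    have hsub : ({Q B z} ∪ Set.range fun i => Q (T i) z - Q (low B T i) z : Set E) ⊆ L :=
      Submodule.subset_span.trans (Submodule.le_topologicalClosure _)
    have hBL : Q B z ∈ L := hsub (Or.inl rfl)
    have hall : ∀ i, Q (T i) z ∈ L := by
      intro i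
      induction i using WellFoundedLT.induction with
      | ind i ih =>
        have h1 : Q (low B T i) z ∈ L := by
          rw [low_eq]
          exact gen_stepC hQ hB hT hBT hmono z L hLc hBL _ fun j hj => ih j hj
        have h2 : Q (T i) z - Q (low B T i) z ∈ L := hsub (Or.inr ⟨i, rfl⟩)
        have h3 := L.add_mem h2 h1
        rwa [sub_add_cancel] at h3
    have h4 : Q (B ∪ ⋃ i, T i) z ∈ L := by
      rw [top_eq]
      exact gen_stepC hQ hB hT hBT hmono z L hLc hBL _ fun j _ => hall j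
    exact h4

lemma sys_countableC (P : ProjFamC C M Q) {S : Set X} (hS : Cl M S) (hc : S.Countable) :
    ∃ 𝓘 : Set (Submodule 𝕜 E × Set E), Sys (Set.range (Q S)) 𝓘 := by
  obtain ⟨c, hc1, hc2⟩ := P.sep S hS hc
  refine ⟨{(⊥, c)}, ?_, ?_⟩
  · intro p hp
    rw [Set.mem_singleton_iff] at hp
    subst hp
    refine ⟨?_, hc1⟩
    rw [Submodule.bot_coe]
    exact isClosed_singleton
  · intro z hz
    refine ⟨(Set.countable_singleton _).mono (fun p hp => hp.1), ?_⟩
    by_cases h0 : z = 0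
    · rw [h0]
      exact subset_closure (Submodule.zero_mem _)
    · refine closure_mono ?_ (hc2 hz)
      refine Set.Subset.trans ?_ Submodule.subset_span
      intro y hy
      rw [Set.mem_iUnion₂]
      refine ⟨(⊥, c), ⟨Set.mem_singleton _, ?_⟩, hy⟩
      intro hmem
      exact h0 ((Submodule.mem_bot 𝕜).mp hmem)

end

open Cardinal in
/-- A system of projections gives a system of supports (induction on the cardinality). -/
theorem indC {𝕜 : Type u} [RCLike 𝕜] {X : Type v} {E : Type w} [NormedAddCommGroup E]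
    [NormedSpace 𝕜 E] {M : Finset X → Set X} {Q : Set X → E →L[𝕜] E} {C : ℝ}
    (hM : ∀ F, (M F).Countable) (P : ProjFamC C M Q) :
    ∃ 𝓘 : Set (Submodule 𝕜 E × Set E), Sys Set.univ 𝓘 := by
  obtain ⟨cl, hcl1, hcl2, hcl3, hcl4⟩ := prfClos X M hM
  have main : ∀ (κ : Cardinal.{v}) (S : Set X), Cl M S → #S = κ →
      ∃ 𝓘 : Set (Submodule 𝕜 E × Set E), Sys (Set.range (Q S)) 𝓘 := by
    intro κ
    induction κ using WellFoundedLT.induction with
    | ind κ ih =>
    intro S hS hκ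
    by_cases hct : S.Countable
    · exact sys_countableC P hS hct
    have hun : ℵ₀ < #S := by
      rw [← not_le]
      intro hle
      exact hct (Cardinal.le_aleph0_iff_set_countable.mp hle)
    -- the well-order
    obtain ⟨e⟩ : Nonempty ((#S).ord.ToType ≃ S) := by
      rw [← Cardinal.eq, Cardinal.mk_ord_toType]
    set I := (#S).ord.ToType with hI
    let T : I → Set X := fun i => cl ((fun j => ((e j : S) : X)) '' Set.Iic i)
    let B : Set X := cl ∅
    have hclB : Cl M B := hcl2 ∅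
    have hclT : ∀ i, Cl M (T i) := fun i => hcl2 _
    have hBT : ∀ i, B ⊆ T i := fun i => hcl3 _ _ (Set.empty_subset _) (hclT i)
    have hmono : Monotone T := by
      intro i j hij
      apply hcl3 _ _ _ (hclT j)
      exact (Set.image_mono (Set.Iic_subset_Iic.mpr hij)).trans (hcl1 _)
    have hBU : B ∪ ⋃ i, T i = S := by
      apply Set.Subset.antisymm
      · apply Set.union_subset
        · exact hcl3 _ _ (Set.empty_subset _) hS
        · apply Set.iUnion_subset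
          intro i
          apply hcl3 _ _ _ hS
          rintro _ ⟨j, _, rfl⟩
          exact (e j).2
      · intro s hs
        apply Set.mem_union_right
        rw [Set.mem_iUnion]
        refine ⟨e.symm ⟨s, hs⟩, hcl1 _ ⟨e.symm ⟨s, hs⟩, Set.mem_Iic.mpr le_rfl, ?_⟩⟩
        simp
    have hcardB : #B < κ := by
      rw [← hκ]
      refine lt_of_le_of_lt (hcl4 ∅) ?_
      rw [max_lt_iff]
      refine ⟨?_, hun⟩
      rw [Cardinal.mk_eq_zero]
      exact lt_of_lt_of_le Cardinal.aleph0_pos hun.le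
    have hcardT : ∀ i, #(T i) < κ := by
      intro i
      rw [← hκ]
      refine lt_of_le_of_lt (hcl4 _) ?_
      rw [max_lt_iff]
      refine ⟨lt_of_le_of_lt Cardinal.mk_image_le ?_, hun⟩
      have h1 : #(Set.Iio i) < #S := Cardinal.mk_Iio_toType_ord_lt i
      have h2 : #(Set.Iic i) ≤ #(Set.Iio i) + 1 := by
        rw [← Set.Iio_insert]
        exact Cardinal.mk_insert_le
      refine lt_of_le_of_lt h2 ?_
      exact Cardinal.add_lt_of_lt hun.le h1 (lt_of_lt_of_le Cardinal.one_lt_aleph0 hun.le)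
    obtain ⟨𝓘B, hIB⟩ := ih _ hcardB B hclB rfl
    choose 𝓘T hIT using fun i => ih _ (hcardT i) (T i) (hclT i) rfl
    obtain ⟨hlow, hjc, hjs⟩ := jumpC P B T hclB hclT hBT hmono
    have hlowT : ∀ i, low B T i ⊆ T i := by
      intro i
      apply Set.union_subset (hBT i)
      apply Set.iUnion₂_subset
      intro j hj
      exact hmono (le_of_lt hj)
    let J : I → E →L[𝕜] E := fun i => Q (T i) - Q (low B T i)
    have hJr : ∀ i z, J i z ∈ Set.range (Q (T i)) := by
      intro i z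
      refine ⟨J i z, ?_⟩
      change Q (T i) (Q (T i) z - Q (low B T i) z) = Q (T i) z - Q (low B T i) z
      rw [map_sub, P.left _ _ (hclT i) (hclT i) Set.Subset.rfl,
        P.right _ _ (hlow i) (hclT i) (hlowT i)]
    have hBr : ∀ z, Q B z ∈ Set.range (Q B) := fun z => ⟨z, rfl⟩
    set 𝓚 : Set (Submodule 𝕜 E × Set E) := pullS (Q B) 𝓘B ∪ ⋃ i, pullS (J i) (𝓘T i) with h𝓚
    refine ⟨𝓚, ?_, ?_⟩
    · rintro p (hp | hp)
      · exact pullS_closed _ hIB p hp
      · rw [Set.mem_iUnion] at hp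
        obtain ⟨i, hp⟩ := hp
        exact pullS_closed _ (hIT i) p hp
    · rintro _ ⟨w, rfl⟩
      set z := Q S w with hz
      have hSz : Q S z = z := by
        rw [hz, P.left S S hS hS Set.Subset.rfl]
      constructor
      · have h1 : {p | p ∈ 𝓚 ∧ z ∉ p.1} ⊆ {p | p ∈ pullS (Q B) 𝓘B ∧ z ∉ p.1} ∪
            ⋃ i ∈ {i | Q (T i) z - Q (low B T i) z ≠ 0},
              {p | p ∈ pullS (J i) (𝓘T i) ∧ z ∉ p.1} := by
          rintro p ⟨hp | hp, hzp⟩
          · exact Or.inl ⟨hp, hzp⟩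
          · right
            rw [Set.mem_iUnion] at hp
            obtain ⟨i, hp⟩ := hp
            rw [Set.mem_iUnion₂]
            refine ⟨i, ?_, hp, hzp⟩
            obtain ⟨q, hq, rfl⟩ := hp
            intro h0
            apply hzp
            change J i z ∈ q.1
            have : J i z = 0 := h0
            rw [this]
            exact q.1.zero_mem
        refine Set.Countable.mono h1 ?_
        apply (pullS_countable _ hIB z (hBr z)).union
        apply (hjc z).biUnion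
        intro i _
        exact pullS_countable _ (hIT i) z (hJr i z)
      · have h1 := hjs z
        rw [hBU, hSz] at h1
        set W := (Submodule.span 𝕜 (⋃ p ∈ {p | p ∈ 𝓚 ∧ z ∉ p.1}, p.2)).topologicalClosure
          with hW
        have hWc : (W : Set E) =
            closure (Submodule.span 𝕜 (⋃ p ∈ {p | p ∈ 𝓚 ∧ z ∉ p.1}, p.2) : Set E) :=
          Submodule.topologicalClosure_coe _
        rw [← hWc]
        have hWcl : IsClosed (W : Set E) := Submodule.isClosed_topologicalClosure _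
        refine closure_minimal ?_ hWcl h1
        rw [SetLike.coe_subset_coe, Submodule.span_le]
        rintro y (hy | ⟨i, rfl⟩)
        · rw [Set.mem_singleton_iff] at hy
          rw [hy, hWc]
          exact pullS_span (Q B) hIB z (hBr z) 𝓚 Set.subset_union_left
        · rw [hWc]
          exact pullS_span (J i) (hIT i) z (hJr i z) 𝓚
            ((Set.subset_iUnion (fun i => pullS (J i) (𝓘T i)) i).trans Set.subset_union_right)
  have hU : Cl M (Set.univ : Set X) := fun F _ => Set.subset_univ _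
  obtain ⟨𝓘, h1, h2⟩ := main _ Set.univ hU rfl
  refine ⟨𝓘, h1, fun z _ => h2 z ⟨z, P.univ z⟩⟩

end Pool.Agent.Work.MP_6c3bcd_an.Skel
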