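import Pool.Agent.Work.MP_6c3bcd_an.Skel.Skeleton
import Pool.Agent.Work.MP_6c3bcd_an.Bd.B06

/-!
# Projectional skeletons with countable orbits
-/

universe u v w t

namespace Pool.Agent.Work.MP_6c3bcd_an.Skel

open Set Topology

/-! ### Open assignments -/

/-- `y` is the first point (in a well-ordering `r`) at distance less than `e` from `z`. -/
def Fst {E : Type*} [PseudoMetricSpace E] (D : Set E) (r : E → E → Prop) (z : E) (e : ℝ) (y : E) :
    Prop := y ∈ D ∧ dist z y < e ∧ ∀ y' ∈ D, r y' y → e ≤ dist z y'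

/-- The countable set of the first points for rational distances. -/
def Zs {E : Type*} [PseudoMetricSpace E] (D : Set E) (r : E → E → Prop) (z : E) : Set E :=
  {y | ∃ e : ℚ, Fst D r z e y}

section assign

variable {E : Type*} [PseudoMetricSpace E] {D : Set E} {r : E → E → Prop}

theorem fst_unique [IsTrichotomous E r] {z : E} {e : ℝ} {y y' : E}
    (h : Fst D r z e y) (h' : Fst D r z e y') : y = y' := by
  rcases trichotomous_of r y y' with h1 | h1 | h1
  · exact absurd h.2.1 (not_lt.2 (h'.2.2 y h.1 h1))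
  · exact h1
  · exact absurd h'.2.1 (not_lt.2 (h.2.2 y' h'.1 h1))

theorem zs_countable [IsTrichotomous E r] (z : E) : (Zs D r z).Countable := by
  have h : Zs D r z = ⋃ e : ℚ, {y | Fst D r z e y} := by
    ext y
    simp [Zs]
  rw [h]
  refine countable_iUnion fun e => Set.Subsingleton.countable ?_
  intro y hy y' hy'
  exact fst_unique hy hy'

theorem exists_fst (hr : WellFounded r) {z : E} (hz : z ∈ closure D) {e : ℝ} (he : 0 < e) :
    ∃ y, Fst D r z e y := by
  obtain ⟨y₀, hy₀, hd⟩ := Metric.mem_closure_iff.1 hz e he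
  have hne : {y | y ∈ D ∧ dist z y < e}.Nonempty := ⟨y₀, hy₀, hd⟩
  refine ⟨hr.min _ hne, (hr.min_mem _ hne).1, (hr.min_mem _ hne).2, fun y' hy' hlt => ?_⟩
  by_contra hcon
  have hmem : y' ∈ {y | y ∈ D ∧ dist z y < e} := ⟨hy', not_le.1 hcon⟩
  exact hr.not_lt_min {y | y ∈ D ∧ dist z y < e} hmem hlt

theorem mem_closure_zs (hr : WellFounded r) {z : E} (hz : z ∈ closure D) :
    z ∈ closure (Zs D r z) := by
  rw [Metric.mem_closure_iff]
  intro ε hε
  obtain ⟨q, hq0, hq⟩ := exists_rat_btwn hε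
  obtain ⟨y, hy⟩ := exists_fst (e := (q : ℝ)) hr hz hq0
  exact ⟨y, ⟨q, hy⟩, hy.2.1.trans hq⟩

/-- The assignment is lower semicontinuous in the strongest sense. -/
theorem eventually_mem_zs {z y : E} (h : y ∈ Zs D r z) : ∀ᶠ z' in 𝓝 z, y ∈ Zs D r z' := by
  obtain ⟨e, hyD, hd, hmin⟩ := h
  obtain ⟨q, hq1, hq2⟩ := exists_rat_btwn hd
  have hδ : 0 < min ((q : ℝ) - dist z y) ((e : ℝ) - q) := lt_min (by linarith) (by linarith)
  filter_upwards [Metric.ball_mem_nhds z hδ] with z' hz'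
  rw [Metric.mem_ball] at hz'
  have h1 := hz'.trans_le (min_le_left _ _)
  have h2 := hz'.trans_le (min_le_right _ _)
  refine ⟨q, hyD, ?_, fun y' hy' hlt => ?_⟩
  · have := dist_triangle z' z y
    linarith
  · have h3 := hmin y' hy' hlt
    have := dist_triangle z z' y'
    rw [dist_comm z z'] at this
    linarith

theorem zs_subset (z : E) : Zs D r z ⊆ D := by
  rintro y ⟨e, h⟩
  exact h.1

end assign

/-! ### Countable directed sets of indices -/

section

variable {𝕜 : Type u} [RCLike 𝕜] {Z : Type w} [NormedAddCommGroup Z] [NormedSpace 𝕜 Z]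
  {Γ : Type v} [PartialOrder Γ] {P : Γ → Z →L[𝕜] Z}

theorem range_mono (hP : IsProjectionalSkeleton P) {s t : Γ} (h : s ≤ t) :
    Set.range (P s) ⊆ Set.range (P t) := by
  rintro _ ⟨z, rfl⟩
  exact ⟨P s z, hP.comp_right s t h z⟩

/-- The supremum of a countable directed set of indices. -/
theorem exists_sup_dir (hP : IsProjectionalSkeleton P) {N : Set Γ} (hN : N.Countable)
    (hD : Dr N) :
    ∃ s, IsLUB N s ∧ Set.range (P s) = closure (⋃ t ∈ N, Set.range (P t)) := by
  obtain ⟨ν, hν⟩ := hN.exists_eq_range hD.1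
  have hνN : ∀ n, ν n ∈ N := fun n => by rw [hν]; exact mem_range_self n
  choose! ub hub1 hub2 hub3 using hD.2
  let τ : ℕ → Γ := fun n => Nat.rec (ν 0) (fun k t => ub t (ν (k + 1))) n
  have hτN : ∀ n, τ n ∈ N := by
    intro n
    induction n with
    | zero => exact hνN 0
    | succ n ih => exact hub1 _ ih _ (hνN _)
  have hτ : Monotone τ := monotone_nat_of_le_succ fun n => hub2 _ (hτN n) _ (hνN _)
  have hντ : ∀ n, ν n ≤ τ n := by
    intro n
    cases n with
    | zero => exact le_rfl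
    | succ n => exact hub3 _ (hτN n) _ (hνN _)
  obtain ⟨s, hs⟩ := hP.exists_sup τ hτ
  have hLUB : IsLUB N s := by
    constructor
    · intro t ht
      rw [hν] at ht
      obtain ⟨n, rfl⟩ := ht
      exact (hντ n).trans (hs.1 (mem_range_self n))
    · intro t ht
      refine hs.2 ?_
      rintro _ ⟨n, rfl⟩
      exact ht (hτN n)
  refine ⟨s, hLUB, Subset.antisymm ?_ ?_⟩
  · rw [hP.range_sup τ s hτ hs]
    refine closure_mono (iUnion_subset fun n => ?_)
    exact subset_biUnion_of_mem (u := fun t => Set.range (P t)) (hτN n)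
  · rw [hP.range_sup τ s hτ hs]
    refine closure_mono (iUnion₂_subset fun t ht => ?_)
    rw [hν] at ht
    obtain ⟨n, rfl⟩ := ht
    exact (range_mono hP (hντ n)).trans (subset_iUnion (fun n => Set.range (P (τ n))) n)

end

variable {𝕜 : Type u} [RCLike 𝕜] {X : Type v} [NormedAddCommGroup X] [NormedSpace 𝕜 X]

/-- A functional which vanishes on a relatively open part of a subspace vanishes on it. -/
theorem vanish_of_open {L : Submodule 𝕜 (StrongDual 𝕜 X)} {U : Set (StrongDual 𝕜 X)}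
    (hU : IsOpen U) {u : StrongDual 𝕜 X} (hu : u ∈ U) (huL : u ∈ L) {x : X}
    (h : ∀ z ∈ U, z ∈ L → z x = 0) {l : StrongDual 𝕜 X} (hl : l ∈ L) : l x = 0 := by
  have hcont : Continuous fun t : ℝ => u + ((t : ℝ) : 𝕜) • l := by
    have hc1 : Continuous fun t : ℝ => ((t : ℝ) : 𝕜) := RCLike.continuous_ofReal
    have hc2 : Continuous fun t : ℝ => ((t : ℝ) : 𝕜) • l := hc1.smul continuous_const
    exact continuous_const.add hc2
  have h0 : (fun t : ℝ => u + ((t : ℝ) : 𝕜) • l) 0 ∈ U := by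
    have h00 : (0 : 𝕜) • l = 0 := zero_smul 𝕜 l
    change u + ((0 : ℝ) : 𝕜) • l ∈ U
    rw [RCLike.ofReal_zero, h00, add_zero]
    exact hu
  have hev : ∀ᶠ t in 𝓝 (0 : ℝ), u + ((t : ℝ) : 𝕜) • l ∈ U :=
    hcont.continuousAt.eventually_mem (hU.mem_nhds h0)
  obtain ⟨t, ht, ht0⟩ : ∃ t : ℝ, u + ((t : ℝ) : 𝕜) • l ∈ U ∧ t ≠ 0 := by
    have h1 : ∀ᶠ t in 𝓝[≠] (0 : ℝ), u + ((t : ℝ) : 𝕜) • l ∈ U ∧ t ≠ 0 :=
      (hev.filter_mono nhdsWithin_le_nhds).and self_mem_nhdsWithin
    exact h1.exists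
  have h1 := h u hu huL
  have h2 := h _ ht (L.add_mem huL (L.smul_mem _ hl))
  rw [add_apply, h1, zero_add, smul_apply, smul_eq_mul] at h2
  have ht' : ((t : ℝ) : 𝕜) ≠ 0 := by exact_mod_cast ht0
  exact (mul_eq_zero.1 h2).resolve_left ht'

/-- **Countable orbits.** If `X` has a projectional skeleton whose induced subspace contains `D(Y)`
and a linearly dense set of vectors `x` whose orbits `{P t x : t ≤ s}` are countable, then every
projectional generator with domain `Y` extends to `D(Y)`. -/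
theorem orbit_extension [CompleteSpace X] {Γ : Type t} [PartialOrder Γ] {P : Γ → X →L[𝕜] X}
    (hP : IsProjectionalSkeleton P) {Y : Submodule 𝕜 (StrongDual 𝕜 X)} {Φ : Y → Set X}
    (hΦ : IsProjectionalGenerator Y Φ)
    (hD : ∀ z ∈ hull Y, ∃ s, ∀ x, z (P s x) = z x)
    {G : Set X} (hG : Dense (Submodule.span 𝕜 G : Set X))
    (horb : ∀ x ∈ G, ∀ s, {y | ∃ r, r ≤ s ∧ P r x = y}.Countable) :
    ∃ Ψ : hull Y → Set X, IsProjectionalGenerator (hull Y) Ψ ∧
      ∀ y : Y, Ψ ⟨y, le_hull Y y.2⟩ = Φ y := by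
  classical
  obtain ⟨s₀⟩ := hP.nonempty
  -- the index of a functional
  have hD' : ∀ z : StrongDual 𝕜 X, ∃ s, z ∈ hull Y → ∀ x, z (P s x) = z x := by
    intro z
    by_cases hz : z ∈ hull Y
    · obtain ⟨s, hs⟩ := hD z hz
      exact ⟨s, fun _ => hs⟩
    · exact ⟨s₀, fun h => absurd h hz⟩
  choose ix hix using hD'
  have hup : ∀ z ∈ hull Y, ∀ s, ix z ≤ s → ∀ x, z (P s x) = z x := by
    intro z hz s hs x
    rw [← hix z hz (P s x), hP.comp_left _ _ hs, hix z hz]
  choose ub hub1 hub2 using hP.directed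
  let op : Γ → Γ → Set Γ := fun a b => {ub a b}
  have hop : ∀ a b, (op a b).Countable := fun a b => countable_singleton _
  let r : StrongDual 𝕜 X → StrongDual 𝕜 X → Prop := WellOrderingRel
  have hwf : WellFounded r := IsWellFounded.wf
  let H : Set (StrongDual 𝕜 X) := hull Y
  let N : StrongDual 𝕜 X → Set Γ := fun z => cls op (insert s₀ (ix '' Zs H r z))
  have hNc : ∀ z, (N z).Countable := fun z =>
    cls_countable hop (((zs_countable z).image ix).insert _)
  have hNd : ∀ z, Dr (N z) := by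
    intro z
    refine ⟨⟨s₀, subset_cls _ _ (mem_insert _ _)⟩, fun a ha b hb => ⟨ub a b, ?_, hub1 a b,
      hub2 a b⟩⟩
    exact cls_closed op _ ha hb rfl
  choose σ hσ1 hσ2 using fun z => exists_sup_dir hP (hNc z) (hNd z)
  have hNlsc : ∀ z, ∀ s ∈ N z, ∀ᶠ z' in 𝓝 z, s ∈ N z' := by
    intro z s hs
    obtain ⟨F, hF, hsF⟩ := cls_finite hs
    have h1 : ∀ᶠ z' in 𝓝 z, (F : Set Γ) ⊆ insert s₀ (ix '' Zs H r z') := by
      have h2 : ∀ a ∈ F, ∀ᶠ z' in 𝓝 z, a ∈ insert s₀ (ix '' Zs H r z') := by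
        intro a ha
        rcases hF (Finset.mem_coe.2 ha) with h | ⟨y, hy, h⟩
        · exact Filter.Eventually.of_forall fun z' => Or.inl h
        · filter_upwards [eventually_mem_zs hy] with z' hz'
          exact Or.inr ⟨y, hz', h⟩
      filter_upwards [(Finset.eventually_all F).2 h2] with z' hz' a ha
      exact hz' a (Finset.mem_coe.1 ha)
    filter_upwards [h1] with z' hz'
    exact cls_mono hz' hsF
  have hfixσ : ∀ z ∈ hull Y, ∀ x, z (P (σ z) x) = z x := by
    intro z hz x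
    have h1 : z ∈ closure (Zs H r z) := mem_closure_zs hwf (subset_closure hz)
    have h2 : Zs H r z ⊆ {y : StrongDual 𝕜 X | y (P (σ z) x) = y x} := by
      intro y hy
      refine hup y (zs_subset z hy) _ ((hσ1 z).1 ?_) x
      exact subset_cls _ _ (Or.inr ⟨y, hy, rfl⟩)
    have h3 : IsClosed {y : StrongDual 𝕜 X | y (P (σ z) x) = y x} :=
      isClosed_eq (ContinuousLinearMap.apply 𝕜 𝕜 (P (σ z) x)).continuous
        (ContinuousLinearMap.apply 𝕜 𝕜 x).continuous
    exact h3.closure_subset_iff.2 h2 h1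
  choose K hKs hKc hK using fun z => (hP.separable (σ z)).exists_countable_dense_subset
  refine Dn.prfRedC 𝕜 X Y Φ hΦ K (fun z _ => hKc z) ?_
  intro L hL hLc hLs A U hAL hA hU hne hUA f hf hfA
  -- it is enough to treat the vectors of `G`
  suffices hG0 : ∀ x ∈ G, f x = 0 by
    have h1 : (Submodule.span 𝕜 G : Set X) ⊆ {x | f x = 0} := by
      intro x hx
      have h2 : Submodule.span 𝕜 G ≤ LinearMap.ker (f : X →ₗ[𝕜] 𝕜) :=
        Submodule.span_le.2 fun y hy => hG0 y hy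
      exact h2 hx
    have h3 : IsClosed {x | f x = 0} := isClosed_eq f.continuous continuous_const
    ext x
    exact h3.closure_subset_iff.2 h1 (hG x)
  intro x hx
  -- `f` vanishes on the ranges of the projections attached to the elements of `A`
  have hfσ : ∀ a ∈ A, ∀ y ∈ Set.range (P (σ a)), f y = 0 := by
    intro a ha y hy
    have h1 : IsClosed {x | f x = 0} := isClosed_eq f.continuous continuous_const
    exact h1.closure_subset_iff.2 (fun k hk => hfA a ha k hk) (hK a hy)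
  -- a common upper bound
  obtain ⟨t₀, ht₀⟩ : ∃ t₀, ∀ z ∈ L, σ z ≤ t₀ := by
    obtain ⟨L₀, hL₀L, hL₀c, hLL₀⟩ := hLs.exists_countable_dense_subset
    have hc : (⋃ z ∈ L₀, N z).Countable := hL₀c.biUnion fun z _ => hNc z
    obtain ⟨b, hb⟩ : ∃ b, ∀ s ∈ ⋃ z ∈ L₀, N z, s ≤ b := by
      rcases (⋃ z ∈ L₀, N z).eq_empty_or_nonempty with h | h
      · exact ⟨s₀, by rw [h]; simp⟩
      · obtain ⟨ν, hν⟩ := hc.exists_eq_range h
        obtain ⟨b, hb⟩ := seq_bound hP ν
        refine ⟨b, fun s hs => ?_⟩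
        rw [hν] at hs
        obtain ⟨n, rfl⟩ := hs
        exact hb n
    refine ⟨b, fun z hz => (hσ1 z).2 ?_⟩
    intro s hs
    obtain ⟨V, hV, hVo, hzV⟩ := eventually_nhds_iff.1 (hNlsc z s hs)
    obtain ⟨z', hz'V, hz'⟩ := mem_closure_iff.1 (hLL₀ hz) V hVo hzV
    exact hb s (mem_iUnion₂.2 ⟨z', hz', hV z' hz'V⟩)
  -- Baire category
  haveI : CompleteSpace L := hLc.completeSpace_coe
  have hO := horb x hx t₀
  set O : Set X := {y | ∃ r, r ≤ t₀ ∧ P r x = y} with hOdef
  haveI : Countable O := hO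
  let C : O → Set L := fun y => closure {z : L | P (σ (z : StrongDual 𝕜 X)) x = (y : X)}
  have hCc : ∀ y, IsClosed (C y) := fun y => isClosed_closure
  have hCu : ⋃ y, C y = univ := by
    refine eq_univ_of_forall fun z => mem_iUnion.2
      ⟨⟨P (σ (z : StrongDual 𝕜 X)) x, σ (z : StrongDual 𝕜 X), ht₀ z z.2, rfl⟩, ?_⟩
    exact subset_closure rfl
  have hdense := dense_iUnion_interior_of_closed hCc hCu
  obtain ⟨u₀, hu₀U, hu₀L⟩ := hne
  have hU' : IsOpen ((fun z : L => (z : StrongDual 𝕜 X)) ⁻¹' U) :=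
    hU.preimage continuous_subtype_val
  obtain ⟨z₁, hz₁U, hz₁⟩ := hdense.inter_open_nonempty _ hU' ⟨⟨u₀, hu₀L⟩, hu₀U⟩
  obtain ⟨y, hy⟩ := mem_iUnion.1 hz₁
  -- `x - y` vanishes on `L`
  have hclo : ∀ z ∈ C y, (z : StrongDual 𝕜 X) (x - y) = 0 := by
    have h1 : IsClosed {z : L | (z : StrongDual 𝕜 X) (x - y) = 0} :=
      isClosed_eq ((ContinuousLinearMap.apply 𝕜 𝕜 (x - (y : X))).continuous.comp
        continuous_subtype_val) continuous_const
    refine fun z hz => h1.closure_subset_iff.2 ?_ hz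
    intro z hz
    have h2 := hfixσ z (hL z.2) x
    rw [hz] at h2
    change (z : StrongDual 𝕜 X) (x - y) = 0
    rw [map_sub, h2, sub_self]
  have hW : IsOpen (interior (C y)) := isOpen_interior
  obtain ⟨W, hWo, hWeq⟩ := isOpen_induced_iff.1 hW
  have hLxy : ∀ l ∈ L, l (x - (y : X)) = 0 := by
    intro l hl
    have hz₁W : (z₁ : StrongDual 𝕜 X) ∈ W := by
      have : z₁ ∈ (Subtype.val ⁻¹' W : Set L) := by rw [hWeq]; exact hy
      exact this
    refine vanish_of_open hWo hz₁W z₁.2 ?_ hl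
    intro z hzW hzL
    have : (⟨z, hzL⟩ : L) ∈ interior (C y) := by
      rw [← hWeq]
      exact hzW
    exact hclo _ (interior_subset this)
  have hfxy : f (x - y) = 0 := wcl_apply_eq_zero hLxy hf
  -- `f y = 0`
  have hfy : f y = 0 := by
    have h1 : ((fun z : L => (z : StrongDual 𝕜 X)) ⁻¹' U ∩ interior (C y)).Nonempty :=
      ⟨z₁, hz₁U, hy⟩
    obtain ⟨z₂, hz₂, hz₂U, -⟩ :
        ({z : L | P (σ (z : StrongDual 𝕜 X)) x = (y : X)} ∩
          ((fun z : L => (z : StrongDual 𝕜 X)) ⁻¹' U ∩ interior (C y))).Nonempty := by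
      have h2 : z₁ ∈ closure {z : L | P (σ (z : StrongDual 𝕜 X)) x = (y : X)} :=
        interior_subset hy
      obtain ⟨w, hw1, hw2⟩ := mem_closure_iff.1 h2 _ (hU'.inter hW) ⟨hz₁U, hy⟩
      exact ⟨w, hw2, hw1⟩
    have hyr : (y : X) ∈ closure (⋃ s ∈ N (z₂ : StrongDual 𝕜 X), Set.range (P s)) := by
      rw [← hσ2]
      exact ⟨x, hz₂⟩
    have h3 : IsClosed {x | f x = 0} := isClosed_eq f.continuous continuous_const
    refine h3.closure_subset_iff.2 ?_ hyr
    refine iUnion₂_subset fun s hs => ?_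
    intro w hw
    obtain ⟨V, hV, hVo, hzV⟩ := eventually_nhds_iff.1 (hNlsc _ s hs)
    obtain ⟨a, haV, haA⟩ := mem_closure_iff.1 (hUA ⟨hz₂U, z₂.2⟩) V hVo hzV
    exact hfσ a haA w (range_mono hP ((hσ1 a).1 (hV a haV)) hw)
  have h4 : f x = f (x - y) + f y := by rw [← map_add, sub_add_cancel]
  rw [h4, hfxy, hfy, add_zero]

end Pool.Agent.Work.MP_6c3bcd_an.Skel
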