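import Pool.Agent.Work.MP_6c3bcd_an.Skel.Defs
import Pool.Agent.Work.MP_6c3bcd_an.Skel.Jump

/-!
# Projectional skeletons give systems of uniformly bounded projections
-/

universe u v w

namespace Pool.Agent.Work.MP_6c3bcd_an

namespace Skel

open Set Topology
open Pool.Agent.Work.MP_6c3bcd_an.Asp

variable {𝕜 : Type u} [RCLike 𝕜] {Z : Type w} [NormedAddCommGroup Z] [NormedSpace 𝕜 Z]
  {Γ : Type v} [PartialOrder Γ] {P : Γ → Z →L[𝕜] Z}

theorem idem (hP : IsProjectionalSkeleton P) {s t : Γ} (h : s ≤ t) {z : Z}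
    (hz : z ∈ Set.range (P s)) : P t z = z := by
  obtain ⟨y, rfl⟩ := hz
  exact hP.comp_right s t h y

/-- An upper bound for a sequence. -/
theorem seq_bound (hP : IsProjectionalSkeleton P) (σ : ℕ → Γ) : ∃ s, ∀ n, σ n ≤ s := by
  choose ub hub1 hub2 using hP.directed
  let τ : ℕ → Γ := fun n => Nat.rec (σ 0) (fun k t => ub t (σ (k + 1))) n
  have hτ : Monotone τ := monotone_nat_of_le_succ fun n => hub1 _ _
  have hστ : ∀ n, σ n ≤ τ n := by
    intro n
    cases n with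
    | zero => exact le_rfl
    | succ n => exact hub2 _ _
  obtain ⟨s, hs⟩ := hP.exists_sup τ hτ
  exact ⟨s, fun n => (hστ n).trans (hs.1 (mem_range_self n))⟩

/-- The norms are bounded on a cofinal set of indices. -/
theorem exists_bound (hP : IsProjectionalSkeleton P) :
    ∃ n : ℕ, ∀ s, ∃ t, s ≤ t ∧ ‖P t‖ ≤ n := by
  by_contra hcon
  push Not at hcon
  choose σ hσ using hcon
  obtain ⟨s, hs⟩ := seq_bound hP σ
  obtain ⟨n, hn⟩ := exists_nat_ge ‖P s‖
  exact absurd (hσ n s (hs n)) (not_lt.2 hn)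

/-- Suprema of sequences of indices with norm at most `C`. -/
theorem norm_sup (hP : IsProjectionalSkeleton P) {C : ℝ} (σ : ℕ → Γ) (hσ : Monotone σ) {s : Γ}
    (hs : IsLUB (range σ) s) (hC : ∀ n, ‖P (σ n)‖ ≤ C) : ‖P s‖ ≤ C := by
  have hC0 : 0 ≤ C := (norm_nonneg _).trans (hC 0)
  refine ContinuousLinearMap.opNorm_le_bound _ hC0 fun z => ?_
  refine le_of_forall_pos_le_add fun ε hε => ?_
  have h1 : P s z ∈ closure (⋃ n, Set.range (P (σ n))) := by
    rw [← hP.range_sup σ s hσ hs]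
    exact mem_range_self z
  obtain ⟨v, hv, hdist⟩ := Metric.mem_closure_iff.1 h1 (ε / (1 + C)) (by positivity)
  obtain ⟨n, hn⟩ := mem_iUnion.1 hv
  have hsn : σ n ≤ s := hs.1 (mem_range_self n)
  have e1 : P (σ n) v = v := idem hP le_rfl hn
  have e2 : P (σ n) (P s z) = P (σ n) z := hP.comp_left _ _ hsn z
  rw [dist_eq_norm] at hdist
  have e3 : P s z = (P s z - v) + (P (σ n) z - P (σ n) (P s z - v)) := by
    rw [map_sub, e1, e2]
    abel
  have h2 : ‖P (σ n) z‖ ≤ C * ‖z‖ := (P (σ n)).le_of_opNorm_le (hC n) z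
  have h3 : ‖P (σ n) (P s z - v)‖ ≤ C * ‖P s z - v‖ := (P (σ n)).le_of_opNorm_le (hC n) _
  calc ‖P s z‖ = ‖(P s z - v) + (P (σ n) z - P (σ n) (P s z - v))‖ := by rw [← e3]
    _ ≤ ‖P s z - v‖ + ‖P (σ n) z - P (σ n) (P s z - v)‖ := norm_add_le _ _
    _ ≤ ‖P s z - v‖ + (‖P (σ n) z‖ + ‖P (σ n) (P s z - v)‖) := by
        gcongr
        exact norm_sub_le _ _
    _ ≤ ‖P s z - v‖ + (C * ‖z‖ + C * ‖P s z - v‖) := by gcongr
    _ = C * ‖z‖ + (1 + C) * ‖P s z - v‖ := by ring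
    _ ≤ C * ‖z‖ + (1 + C) * (ε / (1 + C)) := by gcongr
    _ = C * ‖z‖ + ε := by field_simp

/-- A uniformly bounded projectional skeleton. -/
theorem exists_bounded (hP : IsProjectionalSkeleton P) :
    ∃ (Γ' : Type v) (_ : PartialOrder Γ') (P' : Γ' → Z →L[𝕜] Z) (C : ℝ),
      IsProjectionalSkeleton P' ∧ ∀ s, ‖P' s‖ ≤ C := by
  obtain ⟨n, hn⟩ := exists_bound hP
  have key : ∀ σ : ℕ → {s : Γ // ‖P s‖ ≤ n}, Monotone σ →
      ∃ s : {s : Γ // ‖P s‖ ≤ n}, IsLUB (range σ) s ∧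
        IsLUB (range fun k => ((σ k : {s : Γ // ‖P s‖ ≤ n}) : Γ)) (s : Γ) := by
    intro σ hσ
    have hσ' : Monotone fun k => ((σ k : {s : Γ // ‖P s‖ ≤ n}) : Γ) := fun i j hij => hσ hij
    obtain ⟨s, hs⟩ := hP.exists_sup _ hσ'
    have hsn : ‖P s‖ ≤ n := norm_sup hP _ hσ' hs fun k => (σ k).2
    refine ⟨⟨s, hsn⟩, ⟨?_, ?_⟩, hs⟩
    · rintro _ ⟨k, rfl⟩
      exact hs.1 (mem_range_self k)
    · intro t ht
      refine hs.2 ?_
      rintro _ ⟨k, rfl⟩
      exact ht (mem_range_self k)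
  refine ⟨{s : Γ // ‖P s‖ ≤ n}, inferInstance, fun s => P s, n, ?_, fun s => s.2⟩
  refine
    { nonempty := ?_
      directed := ?_
      separable := fun s => hP.separable s
      comp_left := fun s t h => hP.comp_left s t h
      comp_right := fun s t h => hP.comp_right s t h
      exists_sup := fun σ hσ => (key σ hσ).imp fun s h => h.1
      range_sup := ?_
      cover := ?_ }
  · obtain ⟨s⟩ := hP.nonempty
    obtain ⟨t, -, ht⟩ := hn s
    exact ⟨⟨t, ht⟩⟩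
  · intro s t
    obtain ⟨r, hr1, hr2⟩ := hP.directed s t
    obtain ⟨q, hq1, hq2⟩ := hn r
    exact ⟨⟨q, hq2⟩, hr1.trans hq1, hr2.trans hq1⟩
  · intro σ s hσ hs
    obtain ⟨s', hs', hs''⟩ := key σ hσ
    have : s = s' := hs.unique hs'
    subst this
    exact hP.range_sup (fun k => (σ k : Γ)) s (fun i j hij => hσ hij) hs''
  · intro z
    obtain ⟨s, hs⟩ := hP.cover z
    obtain ⟨t, hst, ht⟩ := hn s
    exact ⟨⟨t, ht⟩, z, idem hP hst hs⟩

/-- `l` is the limit of `P s z` along the set `S` of indices. -/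
def Lm (P : Γ → Z →L[𝕜] Z) (S : Set Γ) (z l : Z) : Prop :=
  ∀ ε : ℝ, 0 < ε → ∃ s ∈ S, ∀ t ∈ S, s ≤ t → ‖P t z - l‖ ≤ ε

/-- Directed nonempty sets of indices. -/
def Dr (S : Set Γ) : Prop := S.Nonempty ∧ ∀ s ∈ S, ∀ t ∈ S, ∃ r ∈ S, s ≤ r ∧ t ≤ r

theorem Lm.unique {S : Set Γ} (hS : Dr S) {z l l' : Z} (h : Lm P S z l) (h' : Lm P S z l') :
    l = l' := by
  rw [← sub_eq_zero, ← norm_le_zero_iff]
  refine le_of_forall_pos_le_add fun ε hε => ?_
  obtain ⟨s, hs, h1⟩ := h (ε / 2) (by positivity)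
  obtain ⟨s', hs', h2⟩ := h' (ε / 2) (by positivity)
  obtain ⟨r, hr, hr1, hr2⟩ := hS.2 s hs s' hs'
  have h3 := h1 r hr hr1
  have h4 := h2 r hr hr2
  have e : l - l' = (P r z - l') - (P r z - l) := by abel
  rw [e]
  have := norm_sub_le (P r z - l') (P r z - l)
  linarith

theorem Lm.add {S : Set Γ} (hS : Dr S) {z z' l l' : Z} (h : Lm P S z l) (h' : Lm P S z' l') :
    Lm P S (z + z') (l + l') := by
  intro ε hε
  obtain ⟨s, hs, h1⟩ := h (ε / 2) (by positivity)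
  obtain ⟨s', hs', h2⟩ := h' (ε / 2) (by positivity)
  obtain ⟨r, hr, hr1, hr2⟩ := hS.2 s hs s' hs'
  refine ⟨r, hr, fun t ht hrt => ?_⟩
  have h3 := h1 t ht (hr1.trans hrt)
  have h4 := h2 t ht (hr2.trans hrt)
  have e : P t (z + z') - (l + l') = (P t z - l) + (P t z' - l') := by rw [map_add]; abel
  rw [e]
  have := norm_add_le (P t z - l) (P t z' - l')
  linarith

theorem Lm.smul {S : Set Γ} {z l : Z} (c : 𝕜) (h : Lm P S z l) :
    Lm P S (c • z) (c • l) := by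
  intro ε hε
  obtain ⟨s, hs, h1⟩ := h (ε / (‖c‖ + 1)) (by positivity)
  refine ⟨s, hs, fun t ht hst => ?_⟩
  have h3 := h1 t ht hst
  have e : P t (c • z) - c • l = c • (P t z - l) := by rw [map_smul, smul_sub]
  rw [e, norm_smul]
  calc ‖c‖ * ‖P t z - l‖ ≤ (‖c‖ + 1) * (ε / (‖c‖ + 1)) := by
        gcongr
        linarith
    _ = ε := by field_simp

theorem Lm.norm_le {S : Set Γ} {z l : Z} {C : ℝ} (hC : ∀ s, ‖P s‖ ≤ C) (h : Lm P S z l) :
    ‖l‖ ≤ C * ‖z‖ := by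
  refine le_of_forall_pos_le_add fun ε hε => ?_
  obtain ⟨s, hs, h1⟩ := h ε hε
  have h2 := h1 s hs le_rfl
  have h3 : ‖P s z‖ ≤ C * ‖z‖ := (P s).le_of_opNorm_le (hC s) z
  have e : l = P s z - (P s z - l) := by abel
  rw [e]
  have := norm_sub_le (P s z) (P s z - l)
  linarith

theorem Lm.apply {S : Set Γ} (hP : IsProjectionalSkeleton P) {C : ℝ} (hC : ∀ s, ‖P s‖ ≤ C)
    (hS : Dr S) {z l : Z} (h : Lm P S z l) {s : Γ} (hs : s ∈ S) : P s l = P s z := by
  rw [← sub_eq_zero, ← norm_le_zero_iff]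
  refine le_of_forall_pos_le_add fun ε hε => ?_
  have hC0 : 0 ≤ C := (norm_nonneg _).trans (hC s)
  obtain ⟨r, hr, h1⟩ := h (ε / (C + 1)) (by positivity)
  obtain ⟨q, hq, hsq, hrq⟩ := hS.2 s hs r hr
  have h2 := h1 q hq hrq
  have e : P s l - P s z = P s (l - P q z) := by rw [map_sub, hP.comp_left s q hsq]
  rw [e]
  have h3 : ‖P s (l - P q z)‖ ≤ C * ‖l - P q z‖ := (P s).le_of_opNorm_le (hC s) _
  rw [norm_sub_rev l] at h3
  calc ‖P s (l - P q z)‖ ≤ C * ‖P q z - l‖ := h3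
    _ ≤ (C + 1) * (ε / (C + 1)) := by
        gcongr
        linarith
    _ = 0 + ε := by field_simp; simp

/-- Vectors in the closed span of the ranges of the `P s`, `s ∈ S`, are their own limits. -/
theorem lm_self (hP : IsProjectionalSkeleton P) {C : ℝ} (hC : ∀ s, ‖P s‖ ≤ C) {S : Set Γ}
    {z : Z} (hz : z ∈ closure (⋃ s ∈ S, Set.range (P s))) : Lm P S z z := by
  intro ε hε
  obtain ⟨s₀⟩ := hP.nonempty
  have hC0 : 0 ≤ C := (norm_nonneg _).trans (hC s₀)
  obtain ⟨v, hv, hdist⟩ := Metric.mem_closure_iff.1 hz (ε / (1 + C)) (by positivity)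
  obtain ⟨s, hs, hvs⟩ := mem_iUnion₂.1 hv
  refine ⟨s, hs, fun t _ hst => ?_⟩
  have e1 : P t v = v := idem hP hst hvs
  have e : P t z - z = P t (z - v) - (z - v) := by rw [map_sub, e1]; abel
  rw [dist_eq_norm] at hdist
  have h3 : ‖P t (z - v)‖ ≤ C * ‖z - v‖ := (P t).le_of_opNorm_le (hC t) _
  rw [e]
  calc ‖P t (z - v) - (z - v)‖ ≤ ‖P t (z - v)‖ + ‖z - v‖ := norm_sub_le _ _
    _ ≤ (1 + C) * ‖z - v‖ := by linarith
    _ ≤ (1 + C) * (ε / (1 + C)) := by gcongr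
    _ = ε := by field_simp

theorem Lm.mem_closure {S : Set Γ} {z l : Z} (h : Lm P S z l) :
    l ∈ closure (⋃ s ∈ S, Set.range (P s)) := by
  rw [Metric.mem_closure_iff]
  intro ε hε
  obtain ⟨s, hs, h1⟩ := h (ε / 2) (by positivity)
  refine ⟨P s z, mem_iUnion₂.2 ⟨s, hs, mem_range_self z⟩, ?_⟩
  rw [dist_comm, dist_eq_norm]
  have := h1 s hs le_rfl
  linarith

/-- Along increasing sequences the projections converge. -/
theorem tail_small (hP : IsProjectionalSkeleton P) {C : ℝ} (hC : ∀ s, ‖P s‖ ≤ C)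
    (σ : ℕ → Γ) (hσ : Monotone σ) (z : Z) {ε : ℝ} (hε : 0 < ε) :
    ∃ n, ‖P (σ (n + 1)) z - P (σ n) z‖ < ε := by
  obtain ⟨s₀⟩ := hP.nonempty
  have hC0 : 0 ≤ C := (norm_nonneg _).trans (hC s₀)
  obtain ⟨s, hs⟩ := hP.exists_sup σ hσ
  have h1 : P s z ∈ closure (⋃ n, Set.range (P (σ n))) := by
    rw [← hP.range_sup σ s hσ hs]
    exact mem_range_self z
  obtain ⟨v, hv, hdist⟩ := Metric.mem_closure_iff.1 h1 (ε / (2 * (1 + C))) (by positivity)
  obtain ⟨n, hn⟩ := mem_iUnion.1 hv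
  refine ⟨n, ?_⟩
  have e1 : P (σ n) v = v := idem hP le_rfl hn
  have e1' : P (σ (n + 1)) v = v := idem hP (hσ (Nat.le_succ n)) hn
  have e2 : P (σ n) (P s z) = P (σ n) z := hP.comp_left _ _ (hs.1 (mem_range_self n)) z
  have e2' : P (σ (n + 1)) (P s z) = P (σ (n + 1)) z :=
    hP.comp_left _ _ (hs.1 (mem_range_self (n + 1))) z
  have e : P (σ (n + 1)) z - P (σ n) z =
      P (σ (n + 1)) (P s z - v) - P (σ n) (P s z - v) := by
    rw [map_sub, map_sub, e1, e1', e2, e2']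
    abel
  rw [dist_eq_norm] at hdist
  have h3 : ‖P (σ (n + 1)) (P s z - v)‖ ≤ C * ‖P s z - v‖ :=
    (P (σ (n + 1))).le_of_opNorm_le (hC _) _
  have h4 : ‖P (σ n) (P s z - v)‖ ≤ C * ‖P s z - v‖ := (P (σ n)).le_of_opNorm_le (hC _) _
  rw [e]
  calc ‖P (σ (n + 1)) (P s z - v) - P (σ n) (P s z - v)‖
      ≤ ‖P (σ (n + 1)) (P s z - v)‖ + ‖P (σ n) (P s z - v)‖ := norm_sub_le _ _
    _ ≤ 2 * C * ‖P s z - v‖ := by linarith
    _ ≤ 2 * C * (ε / (2 * (1 + C))) := by gcongr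
    _ < 2 * (1 + C) * (ε / (2 * (1 + C))) := by
        have : 0 < ε / (2 * (1 + C)) := by positivity
        nlinarith
    _ = ε := by field_simp

/-- Existence of limits along directed sets of indices. -/
theorem exists_lm [CompleteSpace Z] (hP : IsProjectionalSkeleton P) {C : ℝ}
    (hC : ∀ s, ‖P s‖ ≤ C) {S : Set Γ} (hS : Dr S) (z : Z) : ∃ l, Lm P S z l := by
  -- Cauchy condition
  have hcau : ∀ ε : ℝ, 0 < ε → ∀ r ∈ S, ∃ s ∈ S, r ≤ s ∧ ∀ t ∈ S, s ≤ t →
      ‖P t z - P s z‖ < ε := by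
    intro ε hε r hr
    by_contra hcon
    push Not at hcon
    choose! f hf1 hf2 hf3 using hcon
    let σ : ℕ → Γ := fun n => Nat.rec r (fun _ t => f t) n
    have hσ : ∀ n, σ n ∈ S ∧ r ≤ σ n := by
      intro n
      induction n with
      | zero => exact ⟨hr, le_rfl⟩
      | succ n ih => exact ⟨hf1 _ ih.1 ih.2, ih.2.trans (hf2 _ ih.1 ih.2)⟩
    have hmono : Monotone σ := monotone_nat_of_le_succ fun n => hf2 _ (hσ n).1 (hσ n).2
    obtain ⟨n, hn⟩ := tail_small hP hC σ hmono z hε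
    exact absurd (hf3 _ (hσ n).1 (hσ n).2) (not_le.2 hn)
  obtain ⟨r₀, hr₀⟩ := hS.1
  choose! g hg1 hg2 hg3 using fun n : ℕ => hcau (1 / ((n : ℝ) + 1)) (by positivity)
  let τ : ℕ → Γ := fun n => Nat.rec (g 0 r₀) (fun k t => g (k + 1) t) n
  have hτ : ∀ n, τ n ∈ S ∧ ∀ t ∈ S, τ n ≤ t → ‖P t z - P (τ n) z‖ < 1 / ((n : ℝ) + 1) := by
    intro n
    induction n with
    | zero => exact ⟨hg1 0 r₀ hr₀, hg3 0 r₀ hr₀⟩
    | succ n ih => exact ⟨hg1 (n + 1) _ ih.1, hg3 (n + 1) _ ih.1⟩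
  have hmono : Monotone τ := monotone_nat_of_le_succ fun n => hg2 (n + 1) _ (hτ n).1
  have hcs : CauchySeq fun n => P (τ n) z := by
    refine cauchySeq_of_le_tendsto_0 (fun N : ℕ => 2 * (1 / ((N : ℝ) + 1))) ?_ ?_
    · intro n m N hn hm
      rw [dist_eq_norm]
      have h1 := (hτ N).2 (τ n) (hτ n).1 (hmono hn)
      have h2 := (hτ N).2 (τ m) (hτ m).1 (hmono hm)
      have e : P (τ n) z - P (τ m) z = (P (τ n) z - P (τ N) z) - (P (τ m) z - P (τ N) z) := by
        abel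
      rw [e]
      have := norm_sub_le (P (τ n) z - P (τ N) z) (P (τ m) z - P (τ N) z)
      linarith
    · have := (tendsto_one_div_add_atTop_nhds_zero_nat (𝕜 := ℝ)).const_mul 2
      rwa [mul_zero] at this
  obtain ⟨l, hl⟩ := cauchySeq_tendsto_of_complete hcs
  refine ⟨l, fun ε hε => ?_⟩
  obtain ⟨N, hN⟩ := exists_nat_one_div_lt (show (0 : ℝ) < ε / 2 by positivity)
  obtain ⟨m, hm⟩ := (Metric.tendsto_atTop.1 hl) (ε / 2) (by positivity)
  have hk := hm (max m N) (le_max_left _ _)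
  have hkN : (1 : ℝ) / (((max m N : ℕ) : ℝ) + 1) ≤ 1 / ((N : ℝ) + 1) := by
    apply one_div_le_one_div_of_le (by positivity)
    have : (N : ℝ) ≤ ((max m N : ℕ) : ℝ) := by exact_mod_cast le_max_right m N
    linarith
  refine ⟨τ (max m N), (hτ _).1, fun t ht hst => ?_⟩
  have h1 := (hτ (max m N)).2 t ht hst
  rw [dist_eq_norm] at hk
  have e : P t z - l = (P t z - P (τ (max m N)) z) + (P (τ (max m N)) z - l) := by abel
  rw [e]
  have := norm_add_le (P t z - P (τ (max m N)) z) (P (τ (max m N)) z - l)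
  linarith

/-- The limit operator. -/
theorem exists_lmOp [CompleteSpace Z] (hP : IsProjectionalSkeleton P) {C : ℝ}
    (hC : ∀ s, ‖P s‖ ≤ C) {S : Set Γ} (hS : Dr S) :
    ∃ q : Z →L[𝕜] Z, ∀ z, Lm P S z (q z) := by
  choose f hf using exists_lm hP hC hS
  let g : Z →ₗ[𝕜] Z :=
    { toFun := f
      map_add' := fun a b => (hf (a + b)).unique hS ((hf a).add hS (hf b))
      map_smul' := fun r a => (hf (r • a)).unique hS ((hf a).smul r) }
  exact ⟨g.mkContinuous C fun z => (hf z).norm_le hC, fun z => hf z⟩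

/-- A projectional skeleton gives a system of projections. -/
theorem exists_projFam [CompleteSpace Z] (hP : IsProjectionalSkeleton P) {C : ℝ}
    (hC : ∀ s, ‖P s‖ ≤ C) :
    ∃ M : Finset Γ → Set Γ, (∀ F, (M F).Countable) ∧
      ∃ Q : Set Γ → Z →L[𝕜] Z, ProjFamC C M Q := by
  classical
  have hub : ∀ F : Finset Γ, ∃ r, ∀ s ∈ F, s ≤ r := by
    intro F
    induction F using Finset.induction_on with
    | empty =>
      obtain ⟨s⟩ := hP.nonempty
      exact ⟨s, by simp⟩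
    | insert a F _ ih =>
      obtain ⟨r, hr⟩ := ih
      obtain ⟨q, hq1, hq2⟩ := hP.directed a r
      refine ⟨q, fun s hs => ?_⟩
      rcases Finset.mem_insert.1 hs with rfl | hs
      · exact hq1
      · exact (hr s hs).trans hq2
  choose ub hub using hub
  let M : Finset Γ → Set Γ := fun F => {ub F}
  have hDr : ∀ S, Cl M S → Dr S := by
    intro S hS
    refine ⟨⟨ub ∅, hS ∅ (by simp) rfl⟩, fun s hs t ht => ⟨ub {s, t}, hS {s, t} ?_ rfl, ?_, ?_⟩⟩
    · intro x hx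
      rcases Finset.mem_insert.1 (Finset.mem_coe.1 hx) with rfl | hx
      · exact hs
      · rw [Finset.mem_singleton.1 hx]
        exact ht
    · exact hub _ _ (by simp)
    · exact hub _ _ (by simp)
  refine ⟨M, fun F => countable_singleton _, ?_⟩
  obtain ⟨Q, hQ⟩ : ∃ Q : Set Γ → Z →L[𝕜] Z, ∀ S, Cl M S → ∀ z, Lm P S z (Q S z) := by
    refine ⟨fun S => if h : Cl M S then Classical.choose (exists_lmOp hP hC (hDr S h)) else 0, ?_⟩
    intro S hS z
    simp only [dif_pos hS]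
    exact Classical.choose_spec (exists_lmOp hP hC (hDr S hS)) z
  obtain ⟨s₀⟩ := hP.nonempty
  have hfix : ∀ S, Cl M S → ∀ z ∈ closure (⋃ s ∈ S, Set.range (P s)), Q S z = z := fun S hS z hz =>
    (hQ S hS z).unique (hDr S hS) (lm_self hP hC hz)
  refine ⟨Q, ?_⟩
  refine
    { pos := (norm_nonneg _).trans (hC s₀)
      norm_le := fun S hS z => (hQ S hS z).norm_le hC
      left := ?_
      right := ?_
      cont := ?_
      sep := ?_
      univ := ?_ }
  · intro S T hS hT hST z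
    refine (hQ S hS (Q T z)).unique (hDr S hS) ?_
    intro ε hε
    obtain ⟨s, hs, h1⟩ := hQ S hS z ε hε
    refine ⟨s, hs, fun t ht hst => ?_⟩
    rw [(hQ T hT z).apply hP hC (hDr T hT) (hST ht)]
    exact h1 t ht hst
  · intro S T hS hT hST z
    exact hfix T hT _ (closure_mono (biUnion_subset_biUnion_left hST) (hQ S hS z).mem_closure)
  · intro 𝒞 hne hdir h𝒞 z
    have hcl : Cl M (⋃₀ 𝒞) := IJump.cl_sUnion hne hdir h𝒞
    refine closure_mono ?_ (hQ _ hcl z).mem_closure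
    refine iUnion₂_subset fun s hs => ?_
    obtain ⟨S, hS, hsS⟩ := mem_sUnion.1 hs
    intro v hv
    refine mem_iUnion₂.2 ⟨S, hS, v, ?_⟩
    exact hfix S (h𝒞 S hS) v (subset_closure (mem_iUnion₂.2 ⟨s, hsS, hv⟩))
  · intro S hS hcount
    refine TopologicalSpace.IsSeparable.mono (s := closure (⋃ s ∈ S, Set.range (P s))) ?_ ?_
    · refine TopologicalSpace.IsSeparable.closure ?_
      have : (⋃ s ∈ S, Set.range (P s)) = ⋃ s : S, Set.range (P s) := by
        rw [biUnion_eq_iUnion]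
      rw [this]
      haveI : Countable S := hcount
      exact TopologicalSpace.IsSeparable.iUnion fun s => hP.separable s
    · rintro _ ⟨z, rfl⟩
      exact (hQ S hS z).mem_closure
  · intro z
    have hU : Cl M (Set.univ : Set Γ) := fun F _ => Set.subset_univ _
    obtain ⟨s, hs⟩ := hP.cover z
    exact hfix _ hU z (subset_closure (mem_iUnion₂.2 ⟨s, mem_univ s, hs⟩))

/-- A Banach space with a projectional skeleton has a system of countable supports. -/
theorem skeleton_sys [CompleteSpace Z] (hP : IsProjectionalSkeleton P) :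
    ∃ 𝓘 : Set (Submodule 𝕜 Z × Set Z), Sys Set.univ 𝓘 := by
  obtain ⟨Γ', _, P', C, hP', hC⟩ := exists_bounded hP
  obtain ⟨M, hM, Q, hQ⟩ := exists_projFam hP' hC
  exact indC hM hQ

end Skel

end Pool.Agent.Work.MP_6c3bcd_an
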